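import Pool.Agent.Work.MP_adbfe6_an.Tow.Top

/-! Bundle of small proof modules (one section per former module). -/

section

/-!
# MP_adbfe6_an, towers: exactly invariant sets for locally compact groups
-/

open MeasureTheory Set Filter Topology Function

namespace Pool.PSTow

variable {G N : Type} [Group G] [TopologicalSpace G] [IsTopologicalGroup G]
  [LocallyCompactSpace G] [SecondCountableTopology G] [T2Space G]
  [MetricSpace N] [CompactSpace N] [MeasurableSpace N] [BorelSpace N] [MulAction G N]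
  [ContinuousSMul G N]

theorem exact_set (ν : Measure N) [IsProbabilityMeasure ν]
    (hG : ∀ g : G, MeasurePreserving (fun w : N => g • w) ν ν) (φ : N → ℝ) (hφm : Measurable φ)
    (hφi : Integrable φ ν) (hnc : ¬ ∃ c : ℝ, ∀ᵐ w ∂ν, φ w = c) :
    ∃ E : Set N, MeasurableSet E ∧ ν E ≠ 0 ∧ ν Eᶜ ≠ 0 ∧
      ∀ g : G, (∀ᵐ w ∂ν, φ (g • w) = φ w) → ∀ w, g • w ∈ E ↔ w ∈ E := by
  obtain ⟨S, hSmem⟩ : ∃ S : Subgroup G, ∀ g, g ∈ S ↔ ∀ᵐ w ∂ν, φ (g • w) = φ w :=
    ⟨{ carrier := {g | ∀ᵐ w ∂ν, φ (g • w) = φ w}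
       mul_mem' := by
        intro g g' h h'
        show ∀ᵐ w ∂ν, φ ((g * g') • w) = φ w
        have h1 := (hG g').quasiMeasurePreserving.ae h
        filter_upwards [h1, h'] with w h2 h3
        rw [mul_smul, h2, h3]
       one_mem' := by
        show ∀ᵐ w ∂ν, φ ((1 : G) • w) = φ w
        exact Eventually.of_forall fun w => by rw [one_smul]
       inv_mem' := by
        intro g h
        show ∀ᵐ w ∂ν, φ (g⁻¹ • w) = φ w
        have h1 := (hG g⁻¹).quasiMeasurePreserving.ae h
        filter_upwards [h1] with w h2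
        rw [← h2, smul_inv_smul] }, fun g => Iff.rfl⟩
  have hScl : IsClosed (S : Set G) := by
    refine isClosed_of_closure_subset fun g hg => ?_
    obtain ⟨u, hu, hlim⟩ := mem_closure_iff_seq_limit.1 hg
    exact (hSmem _).2 (closed_inv ν hφi (fun n => toC G N (u n)) (toC G N g)
      (((toC G N).continuous.tendsto g).comp hlim) (fun n => hG (u n)) (hG g)
      (fun n => (hSmem _).1 (hu n)))
  have : LocallyCompactSpace S := hScl.locallyCompactSpace
  letI : MeasurableSpace S := borel S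
  have : BorelSpace S := ⟨rfl⟩
  have : SecondCountableTopology S :=
    TopologicalSpace.Subtype.secondCountableTopology (S : Set G)
  obtain ⟨m, hm⟩ : ∃ m : Measure S, m.IsHaarMeasure := ⟨Measure.haar, inferInstance⟩
  have hsm : Measurable fun p : S × N => φ (p.1 • p.2) :=
    hφm.comp (by fun_prop : Continuous fun p : S × N => p.1 • p.2).measurable
  have hms : MeasurableSet {p : S × N | φ (p.1 • p.2) = φ p.2} :=
    measurableSet_eq_fun hsm (hφm.comp measurable_snd)
  have h2 : ∀ᵐ p ∂(m.prod ν), p ∈ {p : S × N | φ (p.1 • p.2) = φ p.2} := by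
    rw [Measure.ae_prod_mem_iff_ae_ae_mem hms]
    exact Eventually.of_forall fun s => (hSmem _).1 s.2
  have h3 : ∀ᵐ w ∂ν, ∀ᵐ s ∂m, φ (s • w) = φ w := by
    have h4 : ∀ᵐ p ∂(ν.prod m), p.swap ∈ {p : S × N | φ (p.1 • p.2) = φ p.2} :=
      Measure.measurePreserving_swap.quasiMeasurePreserving.ae h2
    exact Measure.ae_ae_of_ae_prod h4
  -- the mean value separates
  set c : ℝ := ∫ w, φ w ∂ν with hc
  have hlt : ν {w | φ w < c} ≠ 0 := by
    intro h0
    apply hnc
    refine ⟨c, ?_⟩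
    have h5 : ∀ᵐ w ∂ν, 0 ≤ φ w - c := by
      have h6 : ∀ᵐ w ∂ν, ¬ φ w < c := measure_eq_zero_iff_ae_notMem.1 h0
      filter_upwards [h6] with w hw
      linarith [not_lt.1 hw]
    have h7 : ∫ w, (φ w - c) ∂ν = 0 := by
      rw [integral_sub hφi (integrable_const c)]; simp [hc]
    have h8 := (integral_eq_zero_iff_of_nonneg_ae h5 (hφi.sub (integrable_const c))).1 h7
    filter_upwards [h8] with w hw
    have : φ w - c = 0 := hw
    linarith
  have hge : ν {w | φ w < c}ᶜ ≠ 0 := by
    intro h0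
    apply hnc
    refine ⟨c, ?_⟩
    have h5 : ∀ᵐ w ∂ν, 0 ≤ c - φ w := by
      have h6 : ∀ᵐ w ∂ν, w ∉ {w | φ w < c}ᶜ := measure_eq_zero_iff_ae_notMem.1 h0
      filter_upwards [h6] with w hw
      have : φ w < c := not_not.1 hw
      linarith
    have h7 : ∫ w, (c - φ w) ∂ν = 0 := by
      rw [integral_sub (integrable_const c) hφi]; simp [hc]
    have h8 := (integral_eq_zero_iff_of_nonneg_ae h5 ((integrable_const c).sub hφi)).1 h7
    filter_upwards [h8] with w hw
    have : c - φ w = 0 := hw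
    linarith
  set E : Set N := {w | m {s : S | ¬ φ (s • w) < c} = 0} with hE
  have hEae : ∀ w, w ∈ E ↔ ∀ᵐ s ∂m, φ (s • w) < c := fun w => Iff.rfl
  have hEm : MeasurableSet E := by
    have h5 : MeasurableSet {p : N × S | ¬ φ (p.2 • p.1) < c} := by
      refine MeasurableSet.compl ?_
      exact measurableSet_lt (hsm.comp measurable_swap) measurable_const
    have h6 := measurable_measure_prodMk_left (ν := m) h5
    exact h6 (measurableSet_singleton 0)
  have hEeq : E =ᵐ[ν] {w | φ w < c} := by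
    filter_upwards [h3] with w hw
    refine propext ⟨fun h => ?_, fun h => ?_⟩
    · obtain ⟨s, h5, h6⟩ := (hw.and ((hEae w).1 h)).exists
      show φ w < c
      rw [← h5]; exact h6
    · refine (hEae w).2 ?_
      filter_upwards [hw] with s hs
      rw [hs]; exact h
  refine ⟨E, hEm, by rw [measure_congr hEeq]; exact hlt, by
    rw [measure_congr hEeq.compl]; exact hge, fun g hg w => ?_⟩
  have hgS : g ∈ S := (hSmem g).2 hg
  have key : ∀ (g : S) (w : N), w ∈ E → g • w ∈ E := by
    intro g w hw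
    rw [hEae] at hw ⊢
    have h4 := (quasiMeasurePreserving_mul_right m g).ae hw
    filter_upwards [h4] with s hs
    rw [← mul_smul]; exact hs
  constructor
  · intro h
    have h5 := key (⟨g, hgS⟩ : S)⁻¹ (g • w) h
    have h6 : (⟨g, hgS⟩ : S)⁻¹ • (g • w) = w := by
      show (g⁻¹ : G) • (g • w) = w
      rw [inv_smul_smul]
    rwa [h6] at h5
  · intro h
    exact key ⟨g, hgS⟩ w h

end Pool.PSTow

end

section

/-!
# MP_adbfe6_an, towers: slices are invariant under loops
-/

open MeasureTheory Set Filter Topology Function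

namespace Pool.PSTow

section

variable {Y R : Type} [MetricSpace Y] [CompactSpace Y] [MeasurableSpace Y] [BorelSpace Y]
  [MetricSpace R] [CompactSpace R] [MeasurableSpace R] [BorelSpace R]

/-- almost every slice of an invariant function is invariant under all maps over the identity -/
theorem slice_inv (μ : Measure Y) [IsProbabilityMeasure μ] (ρ : Measure R) [IsProbabilityMeasure ρ]
    (T : Set C(R, R)) (hT : ∀ g ∈ T, MeasurePreserving g ρ ρ) (P : Set C(Y × R, Y × R))
    (hPs : ∀ g ∈ P, ∀ y, sec y g ∈ T) (hP : ∀ g ∈ P, ∀ y w, (g (y, w)).1 = y)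
    (φ : Y × R → ℝ) (hφ : Integrable φ (μ.prod ρ))
    (hinv : ∀ g ∈ P, ∀ᵐ z ∂(μ.prod ρ), φ (g z) = φ z) :
    ∀ᵐ y ∂μ, ∀ g ∈ P, ∀ᵐ w ∂ρ, φ (y, sec y g w) = φ (y, w) := by
  obtain ⟨D, hDc, hDd⟩ := TopologicalSpace.exists_countable_dense P
  have hae1 : ∀ᵐ y ∂μ, ∀ d ∈ D, ∀ᵐ w ∂ρ, φ (y, sec y d.1 w) = φ (y, w) := by
    rw [ae_ball_iff hDc]
    intro d _
    have h1 := Measure.ae_ae_of_ae_prod (hinv d.1 d.2)
    filter_upwards [h1] with y hy
    filter_upwards [hy] with w hw
    rw [← hw]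
    congr 1
    exact Prod.ext (hP d.1 d.2 y w).symm rfl
  have hae2 : ∀ᵐ y ∂μ, Integrable (fun w => φ (y, w)) ρ := hφ.prod_right_ae
  filter_upwards [hae1, hae2] with y hy hyi g hg
  have hcl : (⟨g, hg⟩ : P) ∈ closure D := hDd _
  obtain ⟨d, hdD, hdlim⟩ := mem_closure_iff_seq_limit.1 hcl
  have hlim : Tendsto (fun n => sec y (d n).1) atTop (𝓝 (sec y g)) :=
    ((continuous_sec y).tendsto g).comp
      ((continuous_subtype_val.tendsto (⟨g, hg⟩ : P)).comp hdlim)
  exact closed_inv ρ hyi (fun n => sec y (d n).1) (sec y g) hlim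
    (fun n => hT _ (hPs _ (d n).2 y)) (hT _ (hPs _ hg y))
    (fun n => hy (d n) (hdD n))

end

/-- loop property: every set of positive measure of the lower space contains a point whose slice is
invariant under all the loops at the point -/
def LP {Y N : Type} [MetricSpace Y] [MeasurableSpace Y] [MetricSpace N] [MeasurableSpace N]
    (μ : Measure Y) (ν : Measure N) (T : Set C(Y × N, Y × N)) : Prop :=
  ∀ φ : Y × N → ℝ, Measurable φ → Integrable φ (μ.prod ν) → ∀ G ⊆ T,
    (∀ g ∈ G, ∀ᵐ z ∂(μ.prod ν), φ (g z) = φ z) → ∀ D : Set Y, MeasurableSet D → μ D ≠ 0 →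
    ∃ y ∈ D, ∀ g ∈ G, (∀ w, (g (y, w)).1 = y) → ∀ᵐ w ∂ν, φ (y, (g (y, w)).2) = φ (y, w)

/-- the same with the lower space a product -/
def LP3 {Y Y' N : Type} [MetricSpace Y] [MeasurableSpace Y] [MetricSpace Y'] [MeasurableSpace Y']
    [MetricSpace N] [MeasurableSpace N] (μ : Measure Y) (μ' : Measure Y') (ν : Measure N)
    (T : Set C(Y × (Y' × N), Y × (Y' × N))) : Prop :=
  ∀ φ : Y × (Y' × N) → ℝ, Measurable φ → Integrable φ (μ.prod (μ'.prod ν)) → ∀ G ⊆ T,
    (∀ g ∈ G, ∀ᵐ z ∂(μ.prod (μ'.prod ν)), φ (g z) = φ z) → ∀ D : Set (Y × Y'),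
    MeasurableSet D → (μ.prod μ') D ≠ 0 →
    ∃ p ∈ D, ∀ g ∈ G, (∀ w, (g (p.1, (p.2, w))).1 = p.1 ∧ (g (p.1, (p.2, w))).2.1 = p.2) →
      ∀ᵐ w ∂ν, φ (p.1, (p.2, (g (p.1, (p.2, w))).2.2)) = φ (p.1, (p.2, w))

section

variable {Y Y' N : Type} [MetricSpace Y] [CompactSpace Y] [MeasurableSpace Y] [BorelSpace Y]
  [MetricSpace Y'] [CompactSpace Y'] [MeasurableSpace Y'] [BorelSpace Y']
  [MetricSpace N] [CompactSpace N] [MeasurableSpace N] [BorelSpace N]

theorem LP_step (μ : Measure Y) [IsProbabilityMeasure μ] (μ' : Measure Y') [IsProbabilityMeasure μ']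
    (ν : Measure N) [IsProbabilityMeasure ν] (A : Set C(Y, Y)) (T : Set C(Y' × N, Y' × N))
    (hfree : ∀ a ∈ A, ∀ y, a y = y → ∀ y', a y' = y')
    (hTm : ∀ g ∈ T, MeasurePreserving g (μ'.prod ν) (μ'.prod ν)) (hT : LP μ' ν T) :
    LP3 μ μ' ν (Sk A T) := by
  intro φ hφm hφ G hG hinv D hD hD0
  have hN : Nonempty N := nonempty_of_isProbabilityMeasure ν
  obtain ⟨w₀⟩ := hN
  have hsec : ∀ g ∈ Sk A T, ∀ y, sec y g ∈ T := by
    intro g hg y
    obtain ⟨h, hh, heq⟩ := hg.2 y
    have : sec y g = h := ContinuousMap.ext fun w => heq w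
    rw [this]; exact hh
  set P : Set C(Y × (Y' × N), Y × (Y' × N)) := {g | g ∈ G ∧ ∀ y w, (g (y, w)).1 = y} with hP
  have h1 := slice_inv μ (μ'.prod ν) T hTm P (fun g hg y => hsec g (hG hg.1) y)
    (fun g hg => hg.2) φ hφ (fun g hg => hinv g hg.1)
  have h2 : ∀ᵐ y ∂μ, Integrable (fun w => φ (y, w)) (μ'.prod ν) := hφ.prod_right_ae
  have h3 : ∃ᶠ y in ae μ, μ' (Prod.mk y ⁻¹' D) ≠ 0 := by
    intro h4
    apply hD0
    rw [Measure.measure_prod_null hD]
    filter_upwards [h4] with y hy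
    simpa using hy
  obtain ⟨y, hy3, hy1, hy2⟩ := (h3.and_eventually (h1.and h2)).exists
  obtain ⟨y', hy'D, hy'⟩ := hT (fun w => φ (y, w)) (hφm.comp measurable_prodMk_left) hy2
    (sec y '' P) (by rintro _ ⟨g, hg, rfl⟩; exact hsec g (hG hg.1) y)
    (by rintro _ ⟨g, hg, rfl⟩; exact hy1 g hg) (Prod.mk y ⁻¹' D) (measurable_prodMk_left hD) hy3
  refine ⟨(y, y'), hy'D, fun g hg hgy => ?_⟩
  obtain ⟨⟨a, ha, hga⟩, -⟩ := id (hG hg)
  have hay : a y = y := by rw [← hga y (y', w₀)]; exact (hgy w₀).1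
  have hgP : g ∈ P := ⟨hg, fun y₁ w₁ => by rw [hga]; exact hfree a ha y hay y₁⟩
  exact hy' (sec y g) ⟨g, hgP, rfl⟩ (fun w => (hgy w).2)

end

section PiN

variable (G N : Type) [Group G] [TopologicalSpace G] [IsTopologicalGroup G]
  [LocallyCompactSpace G] [SecondCountableTopology G] [T2Space G]
  [MetricSpace N] [CompactSpace N] [MeasurableSpace N] [BorelSpace N] [MulAction G N]
  [ContinuousSMul G N] (ν : Measure N) [IsProbabilityMeasure ν]

theorem LP_pi (hG : ∀ g : G, MeasurePreserving (fun w : N => g • w) ν ν) :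
    ∀ (k : ℕ) (K : Fin k → Type) [∀ i, Group (K i)] [∀ i, MetricSpace (K i)]
    [∀ i, CompactSpace (K i)] [∀ i, IsTopologicalGroup (K i)] [∀ i, MeasurableSpace (K i)]
    [∀ i, BorelSpace (K i)] (μ : ∀ i, Measure (K i)) [∀ i, IsProbabilityMeasure (μ i)]
    [∀ i, (μ i).IsMulLeftInvariant] [∀ i, (μ i).IsMulRightInvariant],
    LP (Measure.pi μ) ν (TriN K G N) := by
  intro k
  induction k with
  | zero =>
    intro K _ _ _ _ _ _ μ _ _ _ φ hφm hφ T hT hinv D hD hD0
    obtain ⟨y, hy⟩ : D.Nonempty := by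
      by_contra h
      rw [not_nonempty_iff_eq_empty] at h
      rw [h] at hD0
      exact hD0 measure_empty
    refine ⟨y, hy, fun g hg hgy => ?_⟩
    have h1 := Measure.ae_ae_of_ae_prod (hinv g hg)
    obtain ⟨y', hy'⟩ := h1.exists
    rw [Subsingleton.elim y' y] at hy'
    filter_upwards [hy'] with w hw
    rw [← hw]
    congr 1
    exact Prod.ext (hgy w).symm rfl
  | succ k ih =>
    intro K _ _ _ _ _ _ μ _ _ _ φ hφm hφ T hT hinv D hD hD0
    have hs0 : ∀ p : K 0 × (∀ i : Fin k, K ((0 : Fin (k + 1)).succAbove i)),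
        (splitHomeo K).symm p 0 = p.1 := fun p => by
      show Fin.insertNth (α := K) 0 p.1 p.2 0 = p.1
      simp
    have hss : ∀ (p : K 0 × (∀ i : Fin k, K ((0 : Fin (k + 1)).succAbove i))) (j : Fin k),
        (splitHomeo K).symm p ((0 : Fin (k + 1)).succAbove j) = p.2 j := fun p j => by
      exact Fin.insertNth_apply_succAbove (α := K) 0 p.1 p.2 j
    -- the class of the conjugated maps
    have hcls : ∀ g ∈ TriN K G N, cnj (splitHomeoN K N) g ∈
        Sk {a : C(K 0, K 0) | ∃ r, ∀ y, a y = r * y}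
          (TriN (fun j => K ((0 : Fin (k + 1)).succAbove j)) G N) := by
      intro g hg
      have h0 : ∀ z z' : (∀ i, K i) × N, ((g z').1 0)⁻¹ * (g z).1 0 = (z'.1 0)⁻¹ * z.1 0 :=
        fun z z' => hg.1 0 z z' (fun j hj => absurd hj (Fin.not_lt_zero j))
      obtain ⟨w₀⟩ : Nonempty N := nonempty_of_isProbabilityMeasure ν
      refine ⟨?_, ?_⟩
      · refine ⟨⟨fun y => (g (fun _ => 1, w₀)).1 0 * y, by fun_prop⟩,
          ⟨(g (fun _ => 1, w₀)).1 0, fun y => rfl⟩, ?_⟩
        rintro y ⟨w, x⟩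
        show (g ((splitHomeo K).symm (y, w), x)).1 0 = (g (fun _ => 1, w₀)).1 0 * y
        have h1 := h0 ((splitHomeo K).symm (y, w), x) (fun _ => 1, w₀)
        simp only at h1
        rw [hs0] at h1
        rw [inv_one, one_mul, inv_mul_eq_iff_eq_mul] at h1
        exact h1
      · intro y
        refine ⟨sec y (cnj (splitHomeoN K N) g), ⟨?_, ?_⟩, fun w => rfl⟩
        · rintro i ⟨w, x⟩ ⟨w', x'⟩ hww
          show ((g ((splitHomeo K).symm (y, w'), x')).1 ((0 : Fin (k + 1)).succAbove i))⁻¹ *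
            (g ((splitHomeo K).symm (y, w), x)).1 ((0 : Fin (k + 1)).succAbove i) =
            (w' i)⁻¹ * w i
          rw [hg.1 ((0 : Fin (k + 1)).succAbove i) ((splitHomeo K).symm (y, w), x)
            ((splitHomeo K).symm (y, w'), x')]
          · simp only
            rw [hss, hss]
          · intro j hj
            simp only
            rcases Fin.eq_self_or_eq_succAbove 0 j with rfl | ⟨j', rfl⟩
            · rw [hs0, hs0]
            · rw [hss, hss]
              exact hww j' ((Fin.succAbove_lt_succAbove_iff (p := (0 : Fin (k + 1)))).1 hj)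
        · intro w
          obtain ⟨h, hh, hhw⟩ := hg.2 ((splitHomeo K).symm (y, w))
          exact ⟨h, hh, fun x => hhw x⟩
    have hes : MeasurePreserving (splitHomeoN K N).symm
        ((μ 0).prod ((Measure.pi fun j => μ ((0 : Fin (k + 1)).succAbove j)).prod ν))
        ((Measure.pi μ).prod ν) := by
      have := MeasurePreserving.symm (splitHomeoN K N).toMeasurableEquiv
        (by simpa using! splitN_mp K μ N ν)
      simpa using! this
    have hes1 : MeasurePreserving (splitHomeo K).symm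
        ((μ 0).prod (Measure.pi fun j => μ ((0 : Fin (k + 1)).succAbove j))) (Measure.pi μ) := by
      have := MeasurePreserving.symm (splitHomeo K).toMeasurableEquiv
        (by simpa using! measurePreserving_piFinSuccAbove μ 0)
      simpa using! this
    have hstep := LP_step (μ 0) (Measure.pi fun j => μ ((0 : Fin (k + 1)).succAbove j)) ν
      {a : C(K 0, K 0) | ∃ r, ∀ y, a y = r * y}
      (TriN (fun j => K ((0 : Fin (k + 1)).succAbove j)) G N) (by
        rintro a ⟨r, hr⟩ y hy y'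
        have h1 : r * y = y := by rw [← hr y]; exact hy
        have h2 : r = 1 := by simpa using h1
        rw [hr, h2, one_mul])
      (TE_piN G N ν hG k _ _).1 (ih _ _)
    obtain ⟨p, hpD, hp⟩ := hstep (fun z => φ ((splitHomeoN K N).symm z)) (hφm.comp hes.measurable)
      ((hes.integrable_comp hφm.aestronglyMeasurable).2 hφ) (cnj (splitHomeoN K N) '' T)
      (by rintro _ ⟨g, hg, rfl⟩; exact hcls g (hT hg)) (by
        rintro _ ⟨g, hg, rfl⟩
        have h1 := hes.quasiMeasurePreserving.ae (hinv g hg)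
        filter_upwards [h1] with w hw
        show φ ((splitHomeoN K N).symm (splitHomeoN K N (g ((splitHomeoN K N).symm w)))) =
          φ ((splitHomeoN K N).symm w)
        rw [Homeomorph.symm_apply_apply]; exact hw)
      ((splitHomeo K).symm ⁻¹' D) (hes1.measurable hD)
      (by rw [hes1.measure_preimage hD.nullMeasurableSet]; exact hD0)
    refine ⟨(splitHomeo K).symm p, hpD, fun g hg hgy => ?_⟩
    have hval : ∀ w, splitHomeoN K N (g ((splitHomeoN K N).symm (p.1, (p.2, w)))) =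
        (p.1, (p.2, (g ((splitHomeo K).symm p, w)).2)) := by
      intro w
      have h1 : g ((splitHomeoN K N).symm (p.1, (p.2, w))) =
          ((splitHomeo K).symm p, (g ((splitHomeo K).symm p, w)).2) := Prod.ext (hgy w) rfl
      rw [h1]
      show ((splitHomeo K ((splitHomeo K).symm p)).1, ((splitHomeo K ((splitHomeo K).symm p)).2,
        (g ((splitHomeo K).symm p, w)).2)) = _
      rw [Homeomorph.apply_symm_apply]
    have h2 := hp (cnj (splitHomeoN K N) g) ⟨g, hg, rfl⟩ (by
      intro w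
      show (splitHomeoN K N (g ((splitHomeoN K N).symm (p.1, (p.2, w))))).1 = p.1 ∧
        (splitHomeoN K N (g ((splitHomeoN K N).symm (p.1, (p.2, w))))).2.1 = p.2
      rw [hval]; exact ⟨rfl, rfl⟩)
    filter_upwards [h2] with w hw
    have h3 : (cnj (splitHomeoN K N) g) (p.1, (p.2, w)) =
        (p.1, (p.2, (g ((splitHomeo K).symm p, w)).2)) := hval w
    rw [h3] at hw
    exact hw

end PiN

end Pool.PSTow

end
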