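import Mathlib

/-! Bundle of small proof modules (one section per former module). -/

section

/-!
# MP_adbfe6_an, towers: mixing of unitaries with contracted strongly continuous families
-/

open Set Filter Topology Function
open scoped InnerProductSpace

namespace Pool.PSTow

variable {H : Type} [NormedAddCommGroup H] [InnerProductSpace ℝ H]

/-- powers -/
def pw (U : H ≃ₗᵢ[ℝ] H) : ℕ → (H ≃ₗᵢ[ℝ] H)
  | 0 => LinearIsometryEquiv.refl ℝ H
  | n + 1 => (pw U n).trans U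

theorem pw_succ (U : H ≃ₗᵢ[ℝ] H) (n : ℕ) (F : H) : pw U (n + 1) F = U (pw U n F) := rfl

theorem pw_succ' (U : H ≃ₗᵢ[ℝ] H) (n : ℕ) (F : H) : pw U (n + 1) F = pw U n (U F) := by
  induction n generalizing F with
  | zero => rfl
  | succ n ih => rw [pw_succ, ih, pw_succ]

theorem pw_symm (U : H ≃ₗᵢ[ℝ] H) (n : ℕ) (F : H) : pw U.symm n (pw U n F) = F := by
  induction n generalizing F with
  | zero => rfl
  | succ n ih => rw [pw_succ', pw_succ, U.symm_apply_apply, ih]

theorem pw_inner (U : H ≃ₗᵢ[ℝ] H) (n : ℕ) (F G : H) :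
    ⟪pw U n F, G⟫_ℝ = ⟪F, pw U.symm n G⟫_ℝ := by
  rw [← (pw U.symm n).inner_map_map (pw U n F) G, pw_symm]

/-- vectors whose images tend to zero weakly -/
def wz (U : H ≃ₗᵢ[ℝ] H) : Submodule ℝ H where
  carrier := {F | ∀ G, Tendsto (fun n => ⟪pw U n F, G⟫_ℝ) atTop (𝓝 0)}
  add_mem' := by
    intro F F' h h' G
    simpa [inner_add_left] using (h G).add (h' G)
  zero_mem' := by intro G; simp
  smul_mem' := by
    intro c F h G
    simpa [inner_smul_left] using (h G).const_mul c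

theorem wz_closed (U : H ≃ₗᵢ[ℝ] H) : IsClosed (wz U : Set H) := by
  refine isClosed_of_closure_subset fun F hF G => ?_
  rw [Metric.tendsto_atTop]
  intro ε hε
  obtain ⟨F', hF', hd⟩ := Metric.mem_closure_iff.1 hF (ε / (2 * (‖G‖ + 1))) (by positivity)
  obtain ⟨n₀, hn₀⟩ := (Metric.tendsto_atTop.1 (hF' G)) (ε / 2) (by positivity)
  refine ⟨n₀, fun n hn => ?_⟩
  have h1 := hn₀ n hn
  rw [Real.dist_eq, sub_zero] at h1 ⊢
  have h2 : ⟪pw U n F, G⟫_ℝ = ⟪pw U n F', G⟫_ℝ + ⟪pw U n (F - F'), G⟫_ℝ := by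
    rw [← inner_add_left, ← map_add]; congr 2; abel
  have h3 : |⟪pw U n (F - F'), G⟫_ℝ| ≤ ‖F - F'‖ * ‖G‖ := by
    have := abs_real_inner_le_norm (pw U n (F - F')) G
    rwa [LinearIsometryEquiv.norm_map] at this
  have h4 : ‖F - F'‖ * ‖G‖ ≤ ε / 2 := by
    rw [dist_eq_norm] at hd
    have h5 : ‖F - F'‖ * (‖G‖ + 1) ≤ ε / (2 * (‖G‖ + 1)) * (‖G‖ + 1) :=
      mul_le_mul_of_nonneg_right hd.le (by positivity)
    have h6 : ε / (2 * (‖G‖ + 1)) * (‖G‖ + 1) = ε / 2 := by
      field_simp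
    nlinarith [norm_nonneg (F - F'), norm_nonneg G]
  rw [h2]
  calc |⟪pw U n F', G⟫_ℝ + ⟪pw U n (F - F'), G⟫_ℝ|
      ≤ |⟪pw U n F', G⟫_ℝ| + |⟪pw U n (F - F'), G⟫_ℝ| := abs_add_le _ _
    _ < ε := by linarith

/-- coboundaries of the family `T` -/
def cob {ι : Type} (T : ι → H →ₗᵢ[ℝ] H) : Submodule ℝ H :=
  Submodule.span ℝ {F | ∃ v K, F = T v K - K}

theorem cob_orth {ι : Type} (T : ι → H →ₗᵢ[ℝ] H) {G : H} (hG : ∀ F ∈ cob T, ⟪F, G⟫_ℝ = 0) (v : ι) :
    T v G = G := by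
  have h1 : ⟪T v G - G, G⟫_ℝ = 0 := hG _ (Submodule.subset_span ⟨v, G, rfl⟩)
  rw [inner_sub_left] at h1
  have h2 : ⟪T v G - G, T v G - G⟫_ℝ = 0 := by
    have h3 : ⟪G, T v G⟫_ℝ = ⟪T v G, G⟫_ℝ := real_inner_comm _ _
    rw [inner_sub_left, inner_sub_right, inner_sub_right, (T v).inner_map_map, h3]
    linarith
  exact sub_eq_zero.1 (inner_self_eq_zero.1 h2)

theorem orth_cob {ι : Type} (T : ι → H →ₗᵢ[ℝ] H) {G : H} (hG : ∀ v, T v G = G) :
    ∀ F ∈ cob T, ⟪F, G⟫_ℝ = 0 := by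
  intro F hF
  induction hF using Submodule.span_induction with
  | mem F hF =>
    obtain ⟨v, K, rfl⟩ := hF
    rw [inner_sub_left]
    conv_lhs => rw [← hG v]
    rw [(T v).inner_map_map, hG v, sub_self]
  | zero => simp
  | add F F' _ _ h h' => rw [inner_add_left, h, h', add_zero]
  | smul c F _ h => rw [inner_smul_left, h, mul_zero]

/-- contracted families: coboundaries tend to zero weakly -/
theorem cob_le_wz {ι : Type} (U : H ≃ₗᵢ[ℝ] H) (T : ι → H →ₗᵢ[ℝ] H) (Λ : ι → ι)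
    (hc : ∀ v F, T v (U F) = U (T (Λ v) F))
    (h0 : ∀ v F, Tendsto (fun n => T (Λ^[n] v) F) atTop (𝓝 F)) : cob T ≤ wz U.symm := by
  refine Submodule.span_le.2 ?_
  rintro F ⟨v, K, rfl⟩ G
  have hn : ∀ (n : ℕ) (v : ι) (F : H), pw U.symm n (T v F) = T (Λ^[n] v) (pw U.symm n F) := by
    intro n
    induction n with
    | zero => intro v F; rfl
    | succ n ih =>
      intro v F
      rw [pw_succ', pw_succ', iterate_succ_apply, ← ih]
      congr 1
      have h1 := hc v (U.symm F)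
      rw [U.apply_symm_apply] at h1
      rw [h1, U.symm_apply_apply]
  have key : ∀ n, |⟪pw U.symm n (T v K - K), G⟫_ℝ| ≤ ‖K‖ * ‖T (Λ^[n] v) G - G‖ := by
    intro n
    rw [map_sub, hn, inner_sub_left]
    have h1 : ⟪pw U.symm n K, G⟫_ℝ = ⟪T (Λ^[n] v) (pw U.symm n K), T (Λ^[n] v) G⟫_ℝ :=
      ((T (Λ^[n] v)).inner_map_map _ _).symm
    rw [h1, ← inner_sub_right, ← norm_neg (T (Λ^[n] v) G - G), neg_sub]
    refine (abs_real_inner_le_norm _ _).trans ?_
    rw [LinearIsometry.norm_map, LinearIsometryEquiv.norm_map]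
  have hlim : Tendsto (fun n => ‖K‖ * ‖T (Λ^[n] v) G - G‖) atTop (𝓝 0) := by
    have h1 := ((h0 v G).sub_const G).norm.const_mul ‖K‖
    simpa using h1
  exact squeeze_zero_norm (fun n => by rw [Real.norm_eq_abs]; exact key n) hlim

/-- The abstract mixing theorem. -/
theorem mixing [CompleteSpace H] {ι ι' : Type} (U : H ≃ₗᵢ[ℝ] H) (T : ι → H →ₗᵢ[ℝ] H) (Λ : ι → ι)
    (T' : ι' → H →ₗᵢ[ℝ] H) (Λ' : ι' → ι') (hΛ : Surjective Λ)
    (hc : ∀ v F, T v (U F) = U (T (Λ v) F))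
    (h0 : ∀ v F, Tendsto (fun n => T (Λ^[n] v) F) atTop (𝓝 F))
    (hc' : ∀ v F, T' v (U.symm F) = U.symm (T' (Λ' v) F))
    (h0' : ∀ v F, Tendsto (fun n => T' (Λ'^[n] v) F) atTop (𝓝 F))
    (e : H) (he : ‖e‖ = 1) (hUe : U e = e) (hTe : ∀ v, T v e = e) (hTe' : ∀ v, T' v e = e)
    (hinv : ∀ G, (∀ v, T v G = G) → (∀ v, T' v G = G) → ∃ c : ℝ, G = c • e) (F G : H) :
    Tendsto (fun n => ⟪pw U n F, G⟫_ℝ) atTop (𝓝 (⟪F, e⟫_ℝ * ⟪e, G⟫_ℝ)) := by
  have hs := cob_le_wz U T Λ hc h0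
  have hu : cob T' ≤ wz U := cob_le_wz U.symm T' Λ' hc' h0'
  -- the coboundaries of `T` tend to zero weakly in the other direction
  have hs' : cob T ≤ wz U := by
    intro F hF G
    have hpi : ∀ n (G : H), (∀ v, T v G = G) → ∀ v, T v (pw U.symm n G) = pw U.symm n G := by
      intro n
      induction n with
      | zero => intro G hG; exact hG
      | succ n ih =>
        intro G hG v
        rw [pw_succ']
        refine ih _ (fun v => ?_) v
        obtain ⟨w, rfl⟩ := hΛ v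
        have h1 := hc w (U.symm G)
        rw [U.apply_symm_apply, hG w] at h1
        calc T (Λ w) (U.symm G) = U.symm (U (T (Λ w) (U.symm G))) := (U.symm_apply_apply _).symm
          _ = U.symm G := by rw [← h1]
    set Z : Submodule ℝ H := (cob T).topologicalClosure with hZ
    have : CompleteSpace Z := (Submodule.isClosed_topologicalClosure _).completeSpace_coe
    obtain ⟨G₂, hG₂, G₁, hG₁, hsum⟩ := Submodule.exists_add_mem_mem_orthogonal (K := Z) G
    have h1 : ∀ v, T v G₁ = G₁ := by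
      refine cob_orth T fun F hF => ?_
      exact (Submodule.mem_orthogonal _ _).1 hG₁ F (Submodule.le_topologicalClosure _ hF)
    have h2 : Tendsto (fun n => ⟪pw U.symm n G₂, F⟫_ℝ) atTop (𝓝 0) := by
      have h3 : G₂ ∈ wz U.symm := by
        have h4 : Z ≤ wz U.symm := Submodule.topologicalClosure_minimal _ hs (wz_closed _)
        exact h4 hG₂
      exact h3 F
    have h5 : ∀ n, ⟪pw U n F, G⟫_ℝ = ⟪pw U.symm n G₂, F⟫_ℝ := by
      intro n
      rw [pw_inner, hsum, map_add, inner_add_right, real_inner_comm]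
      have h6 : ⟪F, pw U.symm n G₁⟫_ℝ = 0 := orth_cob T (hpi n G₁ h1) F hF
      rw [h6, add_zero]
    simp only [h5]
    exact h2
  -- decomposition
  set Y : Submodule ℝ H := (cob T ⊔ cob T').topologicalClosure with hY
  have hYw : Y ≤ wz U := Submodule.topologicalClosure_minimal _ (sup_le hs' hu) (wz_closed _)
  have : CompleteSpace Y := (Submodule.isClosed_topologicalClosure _).completeSpace_coe
  obtain ⟨F₂, hF₂, F₁, hF₁, hsum⟩ := Submodule.exists_add_mem_mem_orthogonal (K := Y) F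
  obtain ⟨c, hc₁⟩ : ∃ c : ℝ, F₁ = c • e := by
    refine hinv F₁ (cob_orth T fun F hF => ?_) (cob_orth T' fun F hF => ?_)
    · exact (Submodule.mem_orthogonal _ _).1 hF₁ F
        (Submodule.le_topologicalClosure _ (Submodule.mem_sup_left hF))
    · exact (Submodule.mem_orthogonal _ _).1 hF₁ F
        (Submodule.le_topologicalClosure _ (Submodule.mem_sup_right hF))
  have heY : e ∈ Yᗮ := by
    rw [hY, Submodule.orthogonal_closure, ← Submodule.inf_orthogonal]
    exact ⟨(Submodule.mem_orthogonal _ _).2 (orth_cob T hTe),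
      (Submodule.mem_orthogonal _ _).2 (orth_cob T' hTe')⟩
  have h2 : ⟪F₂, e⟫_ℝ = 0 := (Submodule.mem_orthogonal _ _).1 heY F₂ hF₂
  have h3 : ⟪F, e⟫_ℝ = c := by
    rw [hsum, hc₁, inner_add_left, h2, inner_smul_left, real_inner_self_eq_norm_sq, he]
    simp
  have hpe : ∀ n, pw U n e = e := by
    intro n
    induction n with
    | zero => rfl
    | succ n ih => rw [pw_succ, ih, hUe]
  have h4 : ∀ n, ⟪pw U n F, G⟫_ℝ = ⟪pw U n F₂, G⟫_ℝ + c * ⟪e, G⟫_ℝ := by
    intro n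
    rw [hsum, hc₁, map_add, inner_add_left, map_smul, hpe, inner_smul_left]
    simp
  simp only [h4]
  rw [h3]
  simpa using (hYw hF₂ G).add_const (c * ⟪e, G⟫_ℝ)

end Pool.PSTow

end

section

/-!
# MP_adbfe6_an, towers: mixing of homeomorphisms with contracted holonomies
-/

open MeasureTheory Set Filter Topology Function
open scoped InnerProductSpace ENNReal

namespace Pool.PSTow

section

variable {M : Type} [MetricSpace M] [CompactSpace M] [MeasurableSpace M] [BorelSpace M]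
  {μ : Measure M} [IsProbabilityMeasure μ]

/-- composition as an isometry of `L²` -/
noncomputable def cmp (g : M → M) (hg : MeasurePreserving g μ μ) : Lp ℝ 2 μ →ₗᵢ[ℝ] Lp ℝ 2 μ :=
  Lp.compMeasurePreservingₗᵢ ℝ g hg

theorem cmp_apply (g : M → M) (hg : MeasurePreserving g μ μ) (F : Lp ℝ 2 μ) :
    cmp g hg F = Lp.compMeasurePreserving g hg F := rfl

theorem cmp_coe (g : M → M) (hg : MeasurePreserving g μ μ) (F : Lp ℝ 2 μ) :
    ⇑(cmp g hg F) =ᵐ[μ] fun z => F (g z) := Lp.coeFn_compMeasurePreserving F hg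

theorem cmp_cmp (g h : M → M) (hg : MeasurePreserving g μ μ) (hh : MeasurePreserving h μ μ)
    (F : Lp ℝ 2 μ) : cmp g hg (cmp h hh F) = cmp (h ∘ g) (hh.comp hg) F :=
  (Lp.compMeasurePreserving_comp_apply F hh hg).symm

theorem cmp_congr {g h : M → M} (e : g = h) (hg : MeasurePreserving g μ μ)
    (hh : MeasurePreserving h μ μ) (F : Lp ℝ 2 μ) : cmp g hg F = cmp h hh F := by
  subst e; rfl

theorem cmp_id (F : Lp ℝ 2 μ) : cmp id (MeasurePreserving.id μ) F = F :=
  Lp.compMeasurePreserving_id_apply F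

theorem homeo_symm_mp (f : M ≃ₜ M) (hf : MeasurePreserving f μ μ) : MeasurePreserving f.symm μ μ := by
  have := MeasurePreserving.symm f.toMeasurableEquiv (by simpa using! hf)
  simpa using! this

/-- composition with a homeomorphism as a unitary of `L²` -/
noncomputable def ucmp (f : M ≃ₜ M) (hf : MeasurePreserving f μ μ) : Lp ℝ 2 μ ≃ₗᵢ[ℝ] Lp ℝ 2 μ :=
  LinearIsometryEquiv.ofSurjective (cmp f hf) fun F => by
    refine ⟨cmp f.symm (homeo_symm_mp f hf) F, ?_⟩
    rw [cmp_cmp]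
    have e : (⇑f.symm ∘ ⇑f) = id := funext fun z => f.symm_apply_apply z
    rw [cmp_congr e _ (MeasurePreserving.id μ), cmp_id]

theorem ucmp_apply (f : M ≃ₜ M) (hf : MeasurePreserving f μ μ) (F : Lp ℝ 2 μ) :
    ucmp f hf F = cmp f hf F := rfl

theorem ucmp_symm (f : M ≃ₜ M) (hf : MeasurePreserving f μ μ) (F : Lp ℝ 2 μ) :
    (ucmp f hf).symm F = cmp f.symm (homeo_symm_mp f hf) F := by
  rw [LinearIsometryEquiv.symm_apply_eq, ucmp_apply, cmp_cmp]
  have e : (⇑f.symm ∘ ⇑f) = id := funext fun z => f.symm_apply_apply z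
  rw [cmp_congr e _ (MeasurePreserving.id μ), cmp_id]

theorem pw_ucmp (f : M ≃ₜ M) (hf : MeasurePreserving f μ μ) (n : ℕ) (F : Lp ℝ 2 μ) :
    pw (ucmp f hf) n F = cmp f^[n] (hf.iterate n) F := by
  induction n with
  | zero => exact (cmp_id F).symm
  | succ n ih =>
    rw [pw_succ, ih, ucmp_apply, cmp_cmp]
    exact cmp_congr (iterate_succ f n).symm _ _ F

theorem mix_meas (f : M ≃ₜ M) (hf : MeasurePreserving f μ μ) {ι ι' : Type} (Θ : ι → C(M, M))
    (Λ : ι → ι) (hΛ : Surjective Λ) (Θ' : ι' → C(M, M)) (Λ' : ι' → ι')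
    (hmp : ∀ v, MeasurePreserving (Θ v) μ μ) (hmp' : ∀ v, MeasurePreserving (Θ' v) μ μ)
    (hc : ∀ v z, f (Θ v z) = Θ (Λ v) (f z)) (hc' : ∀ v z, f.symm (Θ' v z) = Θ' (Λ' v) (f.symm z))
    (h0 : ∀ v, Tendsto (fun n => Θ (Λ^[n] v)) atTop (𝓝 (ContinuousMap.id M)))
    (h0' : ∀ v, Tendsto (fun n => Θ' (Λ'^[n] v)) atTop (𝓝 (ContinuousMap.id M)))
    (hinv : ∀ φ : M → ℝ, Measurable φ → Integrable φ μ → (∀ v, ∀ᵐ z ∂μ, φ (Θ v z) = φ z) →
      (∀ v, ∀ᵐ z ∂μ, φ (Θ' v z) = φ z) → ∃ c : ℝ, ∀ᵐ z ∂μ, φ z = c)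
    (S T : Set M) (hS : MeasurableSet S) (hT : MeasurableSet T) :
    Tendsto (fun n : ℕ => μ (f^[n] ⁻¹' S ∩ T)) atTop (𝓝 (μ S * μ T)) := by
  have hone : (⇑(ContinuousMap.id M) : M → M) = id := rfl
  have hid : MeasurePreserving (ContinuousMap.id M) μ μ := MeasurePreserving.id μ
  have hlim : ∀ (g : ℕ → C(M, M)) (hg : ∀ n, MeasurePreserving (g n) μ μ) (F : Lp ℝ 2 μ),
      Tendsto g atTop (𝓝 (ContinuousMap.id M)) → Tendsto (fun n => cmp (g n) (hg n) F) atTop (𝓝 F) := by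
    intro g hg F h
    have h1 := Filter.Tendsto.compMeasurePreservingLp (p := 2) (f := fun _ : ℕ => F) (f₀ := F)
      tendsto_const_nhds h hg hid (by simp)
    have h2 : Lp.compMeasurePreserving (ContinuousMap.id M) hid F = F := cmp_id F
    rw [h2] at h1
    exact h1
  set e : Lp ℝ 2 μ := Lp.const 2 μ (1 : ℝ) with he
  have hcoe : ⇑e =ᵐ[μ] fun _ => (1 : ℝ) := Lp.coeFn_const 2 μ 1
  have hce : ∀ (g : M → M) (hg : MeasurePreserving g μ μ), cmp g hg e = e := by
    intro g hg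
    refine Lp.ext ((cmp_coe g hg e).trans ?_)
    have h1 := hg.quasiMeasurePreserving.ae hcoe
    filter_upwards [h1, hcoe] with z h2 h3
    rw [h2, h3]
  have key := mixing (ucmp f hf) (fun v => cmp (Θ v) (hmp v)) Λ (fun v => cmp (Θ' v) (hmp' v)) Λ'
    hΛ (fun v F => by
      rw [ucmp_apply, ucmp_apply, cmp_cmp, cmp_cmp]
      exact cmp_congr (funext fun z => hc v z) _ _ F)
    (fun v F => hlim _ _ F (h0 v)) (fun v F => by
      rw [ucmp_symm, ucmp_symm, cmp_cmp, cmp_cmp]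
      exact cmp_congr (funext fun z => hc' v z) _ _ F)
    (fun v F => hlim _ _ F (h0' v)) e (by
      rw [he]
      have h1 := Lp.norm_const (p := 2) (μ := μ) (c := (1 : ℝ)) (by simp)
      rw [h1]; simp) (by rw [ucmp_apply]; exact hce _ _)
    (fun v => hce _ _) (fun v => hce _ _) (by
      intro G hG hG'
      have hgen : ∀ (g : C(M, M)) (hg : MeasurePreserving g μ μ), cmp g hg G = G →
          ∀ᵐ z ∂μ, G (g z) = G z := by
        intro g hg h
        have h1 := cmp_coe g hg G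
        rw [h] at h1
        filter_upwards [h1] with z hz
        exact hz.symm
      obtain ⟨c, hcG⟩ := hinv G (Lp.stronglyMeasurable G).measurable
        ((Lp.memLp G).integrable (by norm_num)) (fun v => hgen _ _ (hG v)) (fun v => hgen _ _ (hG' v))
      refine ⟨c, Lp.ext ?_⟩
      have h1 := Lp.coeFn_smul c e
      filter_upwards [hcG, h1, hcoe] with z h2 h3 h4
      rw [h2, h3]
      simp [h4])
  have h1 := key (indicatorConstLp 2 hS (measure_ne_top μ S) (1 : ℝ))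
    (indicatorConstLp 2 hT (measure_ne_top μ T) (1 : ℝ))
  have h2 : ∀ n, ⟪pw (ucmp f hf) n (indicatorConstLp 2 hS (measure_ne_top μ S) (1 : ℝ)),
      indicatorConstLp 2 hT (measure_ne_top μ T) (1 : ℝ)⟫_ℝ = μ.real (f^[n] ⁻¹' S ∩ T) := by
    intro n
    rw [pw_ucmp, real_inner_comm, L2.inner_indicatorConstLp_one]
    have h3 := cmp_coe f^[n] (hf.iterate n) (indicatorConstLp 2 hS (measure_ne_top μ S) (1 : ℝ))
    have h4 := (hf.iterate n).quasiMeasurePreserving.ae
      (indicatorConstLp_coeFn (p := 2) (hs := hS) (hμs := measure_ne_top μ S) (c := (1 : ℝ)))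
    have h5 : ∀ᵐ z ∂(μ.restrict T),
        (cmp f^[n] (hf.iterate n) (indicatorConstLp 2 hS (measure_ne_top μ S) (1 : ℝ))) z =
        (f^[n] ⁻¹' S).indicator (fun _ => (1 : ℝ)) z := by
      refine ae_restrict_of_ae ?_
      filter_upwards [h3, h4] with z h6 h7
      rw [h6, h7]
      rfl
    rw [integral_congr_ae h5, integral_indicator ((hf.iterate n).measurable hS)]
    simp [Measure.restrict_restrict ((hf.iterate n).measurable hS), Measure.real]
  have h3 : ⟪(indicatorConstLp 2 hS (measure_ne_top μ S) (1 : ℝ)), e⟫_ℝ = μ.real S := by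
    rw [L2.inner_indicatorConstLp_one, integral_congr_ae (ae_restrict_of_ae hcoe)]
    simp
  have h4 : ⟪e, (indicatorConstLp 2 hT (measure_ne_top μ T) (1 : ℝ))⟫_ℝ = μ.real T := by
    rw [real_inner_comm, L2.inner_indicatorConstLp_one, integral_congr_ae (ae_restrict_of_ae hcoe)]
    simp
  simp only [h2] at h1
  rw [h3, h4] at h1
  have h5 : μ S * μ T ≠ ∞ := ENNReal.mul_ne_top (measure_ne_top μ S) (measure_ne_top μ T)
  refine (ENNReal.tendsto_toReal_iff (fun n => measure_ne_top μ _) h5).1 ?_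
  rw [ENNReal.toReal_mul]
  exact h1

end

end Pool.PSTow

end
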