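import Pool.Agent.Work.MP_adbfe6_an.Sys

/-! Bundle of small proof modules (one section per former module). -/

section

/-!
# MP_adbfe6_an: mixing
-/

open MeasureTheory Filter Topology

set_option linter.unusedSectionVars false

namespace PSG

namespace Sys

variable {X E₁ E₂ G N : Type*}
  [TopologicalSpace X] [AddCommGroup X] [IsTopologicalAddGroup X] [CompactSpace X] [T2Space X]
  [SecondCountableTopology X] [MeasurableSpace X] [BorelSpace X]
  [TopologicalSpace E₁] [AddCommGroup E₁] [IsTopologicalAddGroup E₁] [SecondCountableTopology E₁]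
  [MeasurableSpace E₁] [BorelSpace E₁]
  [TopologicalSpace E₂] [AddCommGroup E₂] [IsTopologicalAddGroup E₂] [SecondCountableTopology E₂]
  [MeasurableSpace E₂] [BorelSpace E₂]
  [TopologicalSpace G] [Group G] [IsTopologicalGroup G] [SecondCountableTopology G] [LocallyCompactSpace G]
  [T2Space G] [MeasurableSpace G] [BorelSpace G]
  [TopologicalSpace N] [CompactSpace N] [T2Space N] [SecondCountableTopology N] [MeasurableSpace N]
  [BorelSpace N] [MulAction G N] [ContinuousSMul G N]
  (m : Measure X) [IsProbabilityMeasure m] [m.IsAddLeftInvariant]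
  (ν₁ : Measure E₁) [SigmaFinite ν₁] [ν₁.IsAddLeftInvariant] [ν₁.IsOpenPosMeasure]
  (ν₂ : Measure E₂) [SigmaFinite ν₂] [ν₂.IsAddLeftInvariant] [ν₂.IsOpenPosMeasure]
  (μ : Measure N) [IsProbabilityMeasure μ] [SMulInvariantMeasure G N μ]
  (D : Sys X E₁ E₂ G)

section Comp

variable {Z : Type*} [MeasurableSpace Z] (ρ : Measure Z)

theorem comp_congr {f g : Z → Z} (hf : MeasurePreserving f ρ ρ) (hg : MeasurePreserving g ρ ρ)
    (h : f = g) (F : Lp ℝ 2 ρ) : Lp.compMeasurePreserving f hf F = Lp.compMeasurePreserving g hg F := by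
  subst h
  rfl

/-- a transport whose conjugates by `f ^ n` tend to the identity fixes `(Dec U)ᗮ` -/
theorem fixed_of_orth_Lp [TopologicalSpace Z] [BorelSpace Z] [R1Space Z] [ρ.InnerRegularCompactLTTop]
    [IsFiniteMeasure ρ] {f : Z → Z} (hf : MeasurePreserving f ρ ρ) (T : ℕ → C(Z, Z))
    (hT : ∀ n, MeasurePreserving (T n) ρ ρ) (hconj : ∀ n z, f^[n] (T 0 z) = T n (f^[n] z))
    (hlim : Tendsto T atTop (𝓝 (ContinuousMap.id Z)))
    {F : Lp ℝ 2 ρ} (hF : F ∈ (Dec (Lp.compMeasurePreservingₗᵢ ℝ f hf))ᗮ) :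
    Lp.compMeasurePreserving (T 0) (hT 0) F = F := by
  refine fixed_of_orth (H := Lp ℝ 2 ρ) hF
    (Lp.compMeasurePreservingₗᵢ ℝ (T 0) (hT 0)).toContinuousLinearMap
    (fun n K => Lp.compMeasurePreserving (T n) (hT n) K) ?_ ?_
  · intro n K
    have h1 : (Lp.compMeasurePreservingₗᵢ ℝ f hf : Lp ℝ 2 ρ → Lp ℝ 2 ρ)^[n] =
        Lp.compMeasurePreserving f^[n] (hf.iterate n) := Lp.compMeasurePreserving_iterate hf n
    show Lp.compMeasurePreserving (T 0) (hT 0) ((Lp.compMeasurePreservingₗᵢ ℝ f hf)^[n] K) =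
      (Lp.compMeasurePreservingₗᵢ ℝ f hf)^[n] (Lp.compMeasurePreserving (T n) (hT n) K)
    rw [h1, ← Lp.compMeasurePreserving_comp_apply, ← Lp.compMeasurePreserving_comp_apply]
    exact comp_congr ρ _ _ (funext fun z => hconj n z) K
  · intro K
    have h1 := Filter.Tendsto.compMeasurePreservingLp (p := 2) (E := ℝ) (f := fun _ : ℕ => K)
      (tendsto_const_nhds) hlim hT (MeasurePreserving.id ρ) (by norm_num)
    have h2 : Lp.compMeasurePreserving (ContinuousMap.id Z) (MeasurePreserving.id ρ) K = K :=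
      Lp.compMeasurePreserving_id_apply K
    rwa [h2] at h1

end Comp

/-- functions orthogonal to the decaying ones are fixed by all transports, hence constant -/
theorem const_of_orth (σ : X → E₁ × E₂) (hσ : Measurable σ) (hσ' : ∀ x, D.toHolData.Pi (σ x) = x)
    (ν₁ : Measure E₁) [SigmaFinite ν₁] [ν₁.IsAddLeftInvariant] [ν₁.IsOpenPosMeasure]
    (ν₂ : Measure E₂) [SigmaFinite ν₂] [ν₂.IsAddLeftInvariant] [ν₂.IsOpenPosMeasure]
    (hA : MeasurePreserving D.A m m) (hacc : D.EssAcc m μ) {F : Lp ℝ 2 (m.prod μ)}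
    (hF : F ∈ (Dec (Lp.compMeasurePreservingₗᵢ ℝ D.f (D.mp_f m μ hA)))ᗮ) :
    ∃ a : ℝ, F =ᵐ[m.prod μ] fun _ => a := by
  have hmet : TopologicalSpace.MetrizableSpace (X × N) :=
    TopologicalSpace.metrizableSpace_of_t3_secondCountable _
  have hF' : F ∈ (Dec (Lp.compMeasurePreservingₗᵢ ℝ D.f' (D.mp_f' m μ hA)))ᗮ := by
    have hle : Dec (Lp.compMeasurePreservingₗᵢ ℝ D.f' (D.mp_f' m μ hA) : Lp ℝ 2 (m.prod μ) →ₗᵢ[ℝ] _) ≤
        Dec (Lp.compMeasurePreservingₗᵢ ℝ D.f (D.mp_f m μ hA)) := by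
      apply Dec_le
      intro K
      show Lp.compMeasurePreserving D.f' (D.mp_f' m μ hA)
        (Lp.compMeasurePreserving D.f (D.mp_f m μ hA) K) = K
      have h : (D.f ∘ D.f' : X × N → X × N) = id := funext fun z => D.f_f' z
      rw [← Lp.compMeasurePreserving_comp_apply]
      exact (comp_congr (m.prod μ) _ (MeasurePreserving.id _) h K).trans
        (Lp.compMeasurePreserving_id_apply K)
    exact Submodule.orthogonal_le hle hF
  -- stable transports
  have hs : ∀ v : E₁, ∀ᵐ z ∂(m.prod μ), F (D.Θ₁ v z) = F z := by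
    intro v
    let T : ℕ → C(X × N, X × N) := fun n => ⟨D.Θ₁ (D.L₁^[n] v),
      D.continuous_Θ₁.comp (continuous_const.prodMk continuous_id)⟩
    have hc : Continuous fun v : E₁ => (⟨D.Θ₁ v,
      D.continuous_Θ₁.comp (continuous_const.prodMk continuous_id)⟩ : C(X × N, X × N)) :=
      ContinuousMap.continuous_of_continuous_uncurry _ D.continuous_Θ₁
    have hlim : Tendsto T atTop (𝓝 (ContinuousMap.id (X × N))) := by
      have h1 := (hc.tendsto 0).comp (D.hL₁ v)
      have h2 : (⟨D.Θ₁ 0, D.continuous_Θ₁.comp (continuous_const.prodMk continuous_id)⟩ :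
          C(X × N, X × N)) = ContinuousMap.id (X × N) := by
        ext z
        · simp [Θ₁, D.H₁_zero]
        · simp [Θ₁, D.H₁_zero]
      rw [h2] at h1
      exact h1
    have h3 := fixed_of_orth_Lp (m.prod μ) (D.mp_f m μ hA) T (fun n => D.mp_Θ₁ m μ _)
      (fun n z => D.f_iter v n z) hlim hF
    have h4 := Lp.coeFn_compMeasurePreserving F (D.mp_Θ₁ m μ v)
    have h5 : Lp.compMeasurePreserving (D.Θ₁ v) (D.mp_Θ₁ m μ v) F = F := h3
    rw [h5] at h4
    filter_upwards [h4] with z hz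
    exact hz.symm
  have hu : ∀ w : E₂, ∀ᵐ z ∂(m.prod μ), F (D.Θ₂ w z) = F z := by
    intro w
    let T : ℕ → C(X × N, X × N) := fun n => ⟨D.Θ₂ (D.L₂^[n] w),
      D.continuous_Θ₂.comp (continuous_const.prodMk continuous_id)⟩
    have hc : Continuous fun w : E₂ => (⟨D.Θ₂ w,
      D.continuous_Θ₂.comp (continuous_const.prodMk continuous_id)⟩ : C(X × N, X × N)) :=
      ContinuousMap.continuous_of_continuous_uncurry _ D.continuous_Θ₂
    have hlim : Tendsto T atTop (𝓝 (ContinuousMap.id (X × N))) := by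
      have h1 := (hc.tendsto 0).comp (D.hL₂ w)
      have h2 : (⟨D.Θ₂ 0, D.continuous_Θ₂.comp (continuous_const.prodMk continuous_id)⟩ :
          C(X × N, X × N)) = ContinuousMap.id (X × N) := by
        ext z
        · simp [Θ₂, D.H₂_zero]
        · simp [Θ₂, D.H₂_zero]
      rw [h2] at h1
      exact h1
    have h3 := fixed_of_orth_Lp (m.prod μ) (D.mp_f' m μ hA) T (fun n => D.mp_Θ₂ m μ _)
      (fun n z => D.f'_iter w n z) hlim hF'
    have h4 := Lp.coeFn_compMeasurePreserving F (D.mp_Θ₂ m μ w)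
    have h5 : Lp.compMeasurePreserving (D.Θ₂ w) (D.mp_Θ₂ m μ w) F = F := h3
    rw [h5] at h4
    filter_upwards [h4] with z hz
    exact hz.symm
  -- level sets
  have hFm : Measurable (F : X × N → ℝ) := (Lp.stronglyMeasurable F).measurable
  obtain ⟨a, ha⟩ := exists_eventuallyEq_const_of_forall_separating (l := ae (m.prod μ))
    (f := (F : X × N → ℝ)) MeasurableSet (fun U hU => by
      have h1 := D.zero_or_one m μ σ hσ hσ' ν₁ ν₂ hacc (S := F ⁻¹' U) (hFm hU)
        (fun v => by
          filter_upwards [hs v] with z hz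
          rw [Set.mem_preimage, Set.mem_preimage, hz])
        (fun w => by
          filter_upwards [hu w] with z hz
          rw [Set.mem_preimage, Set.mem_preimage, hz])
      rcases h1 with h1 | h1
      · right
        exact measure_eq_zero_iff_ae_notMem.1 h1
      · left
        have := measure_eq_zero_iff_ae_notMem.1 h1
        filter_upwards [this] with z hz
        simpa using hz)
  exact ⟨a, ha⟩

end Sys

end PSG

end

section

/-!
# MP_adbfe6_an: mixing of the skew product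
-/

open MeasureTheory Filter Topology

set_option linter.unusedSectionVars false

namespace PSG

section General

variable {Z : Type*} [MeasurableSpace Z] (ρ : Measure Z) [IsProbabilityMeasure ρ]

/-- if the functions orthogonal to the decaying ones are constant, the map is mixing -/
theorem mixing_of_orth {f : Z → Z} (hf : MeasurePreserving f ρ ρ)
    (h : ∀ F ∈ (Dec (Lp.compMeasurePreservingₗᵢ ℝ f hf : Lp ℝ 2 ρ →ₗᵢ[ℝ] Lp ℝ 2 ρ))ᗮ,
      ∃ a : ℝ, F =ᵐ[ρ] fun _ => a)
    {A B : Set Z} (hA : MeasurableSet A) (hB : MeasurableSet B) :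
    Tendsto (fun n : ℕ => ρ.real (A ∩ f^[n] ⁻¹' B)) atTop (𝓝 (ρ.real A * ρ.real B)) := by
  set U : Lp ℝ 2 ρ →ₗᵢ[ℝ] Lp ℝ 2 ρ := Lp.compMeasurePreservingₗᵢ ℝ f hf with hU
  let o : Lp ℝ 2 ρ := indicatorConstLp 2 MeasurableSet.univ (measure_ne_top ρ _) (1 : ℝ)
  have hle : (Dec U)ᗮ ≤ Submodule.span ℝ {o} := by
    intro F hF
    obtain ⟨a, ha⟩ := h F hF
    rw [Submodule.mem_span_singleton]
    refine ⟨a, ?_⟩
    apply Lp.ext
    have h1 : (o : Z → ℝ) =ᵐ[ρ] fun _ => 1 := by
      have := indicatorConstLp_coeFn (p := 2) (hs := MeasurableSet.univ) (hμs := measure_ne_top ρ _)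
        (c := (1 : ℝ))
      refine this.trans (Eventually.of_forall fun z => ?_)
      simp
    filter_upwards [Lp.coeFn_smul a o, h1, ha] with z h2 h3 h4
    rw [h2, Pi.smul_apply, h3, h4]
    simp
  have hdec := orth_le_Dec hle
  let a : Lp ℝ 2 ρ := indicatorConstLp 2 hA (measure_ne_top ρ _) (1 : ℝ)
  let b : Lp ℝ 2 ρ := indicatorConstLp 2 hB (measure_ne_top ρ _) (1 : ℝ)
  have h1 : a - ρ.real A • o ∈ (Submodule.span ℝ {o})ᗮ := by
    rw [Submodule.mem_orthogonal_singleton_iff_inner_right, inner_sub_right, inner_smul_right]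
    simp only [a, o, L2.real_inner_indicatorConstLp_one_indicatorConstLp_one]
    simp
  have h2 := hdec h1 b
  have h3 : ∀ n : ℕ, U^[n] b = indicatorConstLp 2 (hB.preimage (hf.iterate n).measurable)
      (measure_ne_top ρ _) (1 : ℝ) := by
    intro n
    have h1 : (U : Lp ℝ 2 ρ → Lp ℝ 2 ρ)^[n] =
        Lp.compMeasurePreserving f^[n] (hf.iterate n) := Lp.compMeasurePreserving_iterate hf n
    rw [h1]
    rfl
  have h4 : ∀ n : ℕ, inner ℝ (a - ρ.real A • o) (U^[n] b) =
      ρ.real (A ∩ f^[n] ⁻¹' B) - ρ.real A * ρ.real B := by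
    intro n
    rw [h3, inner_sub_left, inner_smul_left]
    simp only [a, o, L2.real_inner_indicatorConstLp_one_indicatorConstLp_one]
    rw [Set.univ_inter]
    have h5 : ρ.real (f^[n] ⁻¹' B) = ρ.real B := (hf.iterate n).measureReal_preimage hB.nullMeasurableSet
    rw [h5]
    rfl
  simp only [h4] at h2
  have h6 := h2.add_const (ρ.real A * ρ.real B)
  simpa using h6

/-- mixing implies ergodicity -/
theorem ergodic_of_mixing {f : Z → Z} (hf : MeasurePreserving f ρ ρ)
    (h : ∀ A B : Set Z, MeasurableSet A → MeasurableSet B →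
      Tendsto (fun n : ℕ => ρ.real (A ∩ f^[n] ⁻¹' B)) atTop (𝓝 (ρ.real A * ρ.real B))) :
    Ergodic f ρ := by
  refine ⟨hf, ⟨fun s hs hinv => ?_⟩⟩
  have h1 : ∀ n : ℕ, f^[n] ⁻¹' s = s := by
    intro n
    induction n with
    | zero => rfl
    | succ n ih => rw [Function.iterate_succ, Set.preimage_comp, ih, hinv]
  have h2 := h s s hs hs
  simp only [h1, Set.inter_self] at h2
  have h3 := tendsto_nhds_unique h2 tendsto_const_nhds
  have h4 : ρ.real s = 0 ∨ ρ.real s = 1 := by
    have h5 : ρ.real s * (ρ.real s - 1) = 0 := by linarith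
    rcases mul_eq_zero.1 h5 with h6 | h6
    · exact Or.inl h6
    · exact Or.inr (by linarith)
  rw [Filter.eventuallyConst_set']
  rcases h4 with h4 | h4
  · left
    rw [Measure.real, ENNReal.toReal_eq_zero_iff] at h4
    rcases h4 with h4 | h4
    · exact ae_eq_empty.2 h4
    · exact absurd h4 (measure_ne_top _ _)
  · right
    have h5 : ρ s = 1 := by
      rw [Measure.real] at h4
      rwa [ENNReal.toReal_eq_one_iff] at h4
    rw [ae_eq_univ]
    exact (prob_compl_eq_zero_iff hs).2 h5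

end General

namespace Sys

variable {X E₁ E₂ G N : Type*}
  [TopologicalSpace X] [AddCommGroup X] [IsTopologicalAddGroup X] [CompactSpace X] [T2Space X]
  [SecondCountableTopology X] [MeasurableSpace X] [BorelSpace X]
  [TopologicalSpace E₁] [AddCommGroup E₁] [IsTopologicalAddGroup E₁] [SecondCountableTopology E₁]
  [MeasurableSpace E₁] [BorelSpace E₁]
  [TopologicalSpace E₂] [AddCommGroup E₂] [IsTopologicalAddGroup E₂] [SecondCountableTopology E₂]
  [MeasurableSpace E₂] [BorelSpace E₂]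
  [TopologicalSpace G] [Group G] [IsTopologicalGroup G] [SecondCountableTopology G] [LocallyCompactSpace G]
  [T2Space G] [MeasurableSpace G] [BorelSpace G]
  [TopologicalSpace N] [CompactSpace N] [T2Space N] [SecondCountableTopology N] [MeasurableSpace N]
  [BorelSpace N] [MulAction G N] [ContinuousSMul G N]
  (m : Measure X) [IsProbabilityMeasure m] [m.IsAddLeftInvariant]
  (μ : Measure N) [IsProbabilityMeasure μ] [SMulInvariantMeasure G N μ]
  (D : Sys X E₁ E₂ G)

/-- **the abstract theorem** -/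
theorem mixing (σ : X → E₁ × E₂) (hσ : Measurable σ) (hσ' : ∀ x, D.toHolData.Pi (σ x) = x)
    (ν₁ : Measure E₁) [SigmaFinite ν₁] [ν₁.IsAddLeftInvariant] [ν₁.IsOpenPosMeasure]
    (ν₂ : Measure E₂) [SigmaFinite ν₂] [ν₂.IsAddLeftInvariant] [ν₂.IsOpenPosMeasure]
    (hA : MeasurePreserving D.A m m) (hacc : D.EssAcc m μ)
    {A B : Set (X × N)} (hAm : MeasurableSet A) (hBm : MeasurableSet B) :
    Tendsto (fun n : ℕ => (m.prod μ).real (A ∩ D.f^[n] ⁻¹' B)) atTop
      (𝓝 ((m.prod μ).real A * (m.prod μ).real B)) :=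
  mixing_of_orth (m.prod μ) (D.mp_f m μ hA)
    (fun _ hF => D.const_of_orth m μ σ hσ hσ' ν₁ ν₂ hA hacc hF) hAm hBm

end Sys

end PSG

end
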