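import Pool.Agent.Work.MP_adbfe6_an.Hilb
import Pool.Agent.Work.MP_adbfe6_an.An.Defs
import Pool.Agent.Work.MP_adbfe6_an.Ext.Main
import Pool.Agent.Work.MP_adbfe6_an.Bd.B02

/-! Bundle of small proof modules (one section per former module). -/

section

/-!
# MP_adbfe6_an, nonlinear base: limits of convex combinations of the images of a vector
-/

set_option autoImplicit false

open Filter Topology Set

namespace Pool.Agent.Work.MP_adbfe6_an.An

section Hilbert

variable {H : Type*} [NormedAddCommGroup H] [InnerProductSpace ℝ H]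

/-- Some convex combinations of the tails of a bounded sequence converge. -/
theorem exists_convex_limit [CompleteSpace H] (v : ℕ → H) (B : ℝ) (hB : ∀ n, ‖v n‖ ≤ B) :
    ∃ (c : H) (d : ℕ → H), (∀ j, d j ∈ convexHull ℝ (v '' Ici j)) ∧
      Tendsto d atTop (𝓝 c) := by
  obtain ⟨C, hC⟩ : ∃ C : ℕ → Set H, ∀ j, C j = closure (convexHull ℝ (v '' Ici j)) :=
    ⟨_, fun _ => rfl⟩
  have hvC : ∀ j, v j ∈ C j := fun j => by
    rw [hC]
    exact subset_closure (subset_convexHull ℝ _ ⟨j, mem_Ici.2 le_rfl, rfl⟩)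
  have hconv : ∀ j, Convex ℝ (C j) := fun j => by
    rw [hC]
    exact (convex_convexHull ℝ _).closure
  have hanti : ∀ j l, j ≤ l → C l ⊆ C j := fun j l h => by
    rw [hC, hC]
    exact closure_mono (convexHull_mono (image_mono (Ici_subset_Ici.2 h)))
  have hmin : ∀ j, ∃ c ∈ C j, ∀ w ∈ C j, ‖c‖ ≤ ‖w‖ := by
    intro j
    have hcl : IsComplete (C j) := by
      rw [hC]
      exact isClosed_closure.isComplete
    obtain ⟨c, hc, h⟩ := exists_norm_eq_iInf_of_complete_convex ⟨v j, hvC j⟩ hcl (hconv j) 0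
    refine ⟨c, hc, fun w hw => ?_⟩
    rw [zero_sub, norm_neg] at h
    rw [h]
    have h2 := ciInf_le (f := fun w : C j => ‖(0 : H) - w‖)
      ⟨0, Set.forall_mem_range.2 fun _ => norm_nonneg _⟩ ⟨w, hw⟩
    simpa using h2
  choose c hcC hcm using hmin
  have hcB : ∀ j, ‖c j‖ ≤ B := fun j => (hcm j _ (hvC j)).trans (hB j)
  have hmono : Monotone fun j => ‖c j‖ ^ 2 := by
    intro j l h
    exact pow_le_pow_left₀ (norm_nonneg _) (hcm j _ (hanti j l h (hcC l))) 2
  have hbdd : BddAbove (range fun j => ‖c j‖ ^ 2) := by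
    refine ⟨B ^ 2, ?_⟩
    rintro _ ⟨j, rfl⟩
    exact pow_le_pow_left₀ (norm_nonneg _) (hcB j) 2
  have hlim := tendsto_atTop_ciSup hmono hbdd
  have hcau := hlim.cauchySeq
  have hdist : ∀ j l, j ≤ l → ‖c l - c j‖ ^ 2 ≤ 2 * (‖c l‖ ^ 2 - ‖c j‖ ^ 2) := by
    intro j l h
    have h1 : (2 : ℝ)⁻¹ • c l + (2 : ℝ)⁻¹ • c j ∈ C j :=
      hconv j (hanti j l h (hcC l)) (hcC j) (by norm_num) (by norm_num) (by norm_num)
    have h2 := hcm j _ h1
    rw [← smul_add, norm_smul] at h2
    have h3 : ‖c j‖ ≤ ‖c l + c j‖ / 2 := by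
      have : ‖(2 : ℝ)⁻¹‖ = 2⁻¹ := by norm_num
      rw [this] at h2
      linarith
    have h4 := parallelogram_law_with_norm ℝ (c l) (c j)
    have h5 : (2 * ‖c j‖) ^ 2 ≤ ‖c l + c j‖ ^ 2 :=
      pow_le_pow_left₀ (by positivity) (by linarith) 2
    nlinarith
  have hcc : CauchySeq c := by
    rw [Metric.cauchySeq_iff']
    intro ε hε
    obtain ⟨n₀, hn₀⟩ := (Metric.cauchySeq_iff'.1 hcau) (ε ^ 2 / 2) (by positivity)
    refine ⟨n₀, fun n hn => ?_⟩
    have h1 := hn₀ n hn
    rw [Real.dist_eq] at h1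
    have h2 := hdist n₀ n hn
    have h3 := (abs_lt.1 h1).2
    rw [dist_eq_norm]
    exact lt_of_pow_lt_pow_left₀ 2 hε.le (by linarith)
  obtain ⟨c', hc'⟩ := cauchySeq_tendsto_of_complete hcc
  have hd : ∀ j : ℕ, ∃ d ∈ convexHull ℝ (v '' Ici j), dist (c j) d < 1 / ((j : ℝ) + 1) := by
    intro j
    have h1 := hcC j
    rw [hC] at h1
    exact Metric.mem_closure_iff.1 h1 _ (by positivity)
  choose d hd1 hd2 using hd
  refine ⟨c', d, hd1, ?_⟩
  rw [tendsto_iff_dist_tendsto_zero] at hc' ⊢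
  have h1 : Tendsto (fun j : ℕ => 1 / ((j : ℝ) + 1) + dist (c j) c') atTop (𝓝 0) := by
    simpa using tendsto_one_div_add_atTop_nhds_zero_nat.add hc'
  refine squeeze_zero (fun _ => dist_nonneg) (fun j => ?_) h1
  calc dist (d j) c' ≤ dist (d j) (c j) + dist (c j) c' := dist_triangle _ _ _
    _ ≤ 1 / ((j : ℝ) + 1) + dist (c j) c' := by
      rw [dist_comm (d j)]
      exact add_le_add (hd2 j).le le_rfl

/-- A vector which is orthogonal to all limits of convex combinations of images has decaying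
correlations. -/
theorem mem_Dec_of [CompleteSpace H] {U : H →ₗᵢ[ℝ] H} {F : H} (D : Set H) (hD : Dense D)
    (hneg : ∀ K ∈ D, -K ∈ D)
    (h : ∀ K ∈ D, ∀ (d : ℕ → H) (c : H),
      (∀ j, d j ∈ convexHull ℝ ((fun n => U^[n] K) '' Ici j)) → Tendsto d atTop (𝓝 c) →
      inner ℝ F c = 0) : F ∈ PSG.Dec U := by
  -- one sided bounds
  have h1 : ∀ K ∈ D, ∀ ε : ℝ, 0 < ε → ∀ᶠ n in atTop, inner ℝ F (U^[n] K) < ε := by
    intro K hK ε hε
    by_contra hcon
    rw [not_eventually] at hcon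
    have hcon' : ∃ᶠ n in atTop, ε ≤ inner ℝ F (U^[n] K) := hcon.mono fun n hn => not_lt.1 hn
    obtain ⟨φ, hφ, hφ2⟩ := extraction_of_frequently_atTop hcon'
    obtain ⟨c, d, hd, hlim⟩ := exists_convex_limit (fun n => U^[φ n] K) ‖K‖
      (fun n => (PSG.norm_iterate U _ K).le)
    have h2 : ∀ j, ε ≤ inner ℝ F (d j) := by
      intro j
      have h3 : convexHull ℝ ((fun n => U^[φ n] K) '' Ici j) ⊆ {w | ε ≤ inner ℝ F w} := by
        refine convexHull_min ?_ ?_
        · rintro _ ⟨n, -, rfl⟩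
          exact hφ2 n
        · intro x hx y hy a b ha hb hab
          simp only [mem_ofPred_eq] at hx hy ⊢
          rw [inner_add_right, real_inner_smul_right, real_inner_smul_right]
          have e1 := mul_le_mul_of_nonneg_left hx ha
          have e2 := mul_le_mul_of_nonneg_left hy hb
          have e3 : a * ε + b * ε = ε := by rw [← add_mul, hab, one_mul]
          linarith
      exact h3 (hd j)
    have h4 : ∀ j, d j ∈ convexHull ℝ ((fun n => U^[n] K) '' Ici j) := by
      intro j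
      refine convexHull_mono ?_ (hd j)
      rintro _ ⟨n, hn, rfl⟩
      exact ⟨φ n, mem_Ici.2 ((mem_Ici.1 hn).trans (hφ.id_le n)), rfl⟩
    have h5 := h K hK d c h4 hlim
    have h6 : Tendsto (fun j => inner ℝ F (d j)) atTop (𝓝 (inner ℝ F c)) :=
      tendsto_const_nhds.inner hlim
    have h7 := ge_of_tendsto' h6 h2
    linarith
  have hneg' : ∀ (n : ℕ) (K : H), U^[n] (-K) = -(U^[n] K) := by
    intro n K
    induction n with
    | zero => rfl
    | succ n ih => rw [Function.iterate_succ_apply', Function.iterate_succ_apply', ih, map_neg]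
  have h2 : ∀ K ∈ D, Tendsto (fun n : ℕ => inner ℝ F (U^[n] K)) atTop (𝓝 0) := by
    intro K hK
    rw [Metric.tendsto_atTop']
    intro ε hε
    obtain ⟨n, hn⟩ := eventually_atTop.1 ((h1 K hK ε hε).and (h1 (-K) (hneg K hK) ε hε))
    refine ⟨n, fun m hm => ?_⟩
    obtain ⟨e1, e2⟩ := hn m hm.le
    rw [hneg', inner_neg_right] at e2
    rw [Real.dist_eq, sub_zero, abs_lt]
    exact ⟨by linarith, e1⟩
  intro K
  rw [Metric.tendsto_atTop]
  intro ε hε
  obtain ⟨K', hK', hd⟩ := Metric.mem_closure_iff.1 (hD K) (ε / (2 * (‖F‖ + 1))) (by positivity)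
  obtain ⟨n₀, hn₀⟩ := (Metric.tendsto_atTop.1 (h2 K' hK')) (ε / 2) (by positivity)
  refine ⟨n₀, fun n hn => ?_⟩
  have h3 := hn₀ n hn
  rw [Real.dist_eq, sub_zero] at h3 ⊢
  have h4 : inner ℝ F (U^[n] K) = inner ℝ F (U^[n] (K - K')) + inner ℝ F (U^[n] K') := by
    rw [PSG.iterate_sub, ← inner_add_right, sub_add_cancel]
  have h5 : |inner ℝ F (U^[n] (K - K'))| ≤ ‖F‖ * ‖K - K'‖ := by
    have := abs_real_inner_le_norm F (U^[n] (K - K'))
    rwa [PSG.norm_iterate] at this
  have h6 : ‖F‖ * ‖K - K'‖ ≤ ε / 2 := by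
    rw [dist_eq_norm] at hd
    have hF : 0 ≤ ‖F‖ := norm_nonneg F
    calc ‖F‖ * ‖K - K'‖ ≤ (‖F‖ + 1) * (ε / (2 * (‖F‖ + 1))) := by
          apply mul_le_mul (by linarith) hd.le (norm_nonneg _) (by linarith)
      _ = ε / 2 := by field_simp
  rw [h4]
  calc |inner ℝ F (U^[n] (K - K')) + inner ℝ F (U^[n] K')|
      ≤ |inner ℝ F (U^[n] (K - K'))| + |inner ℝ F (U^[n] K')| := abs_add_le _ _
    _ < ε / 2 + ε / 2 := by linarith
    _ = ε := by ring

end Hilbert

end Pool.Agent.Work.MP_adbfe6_an.An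

end

section

/-!
# Basic facts on rates
-/

set_option autoImplicit false
set_option linter.unusedSectionVars false

open MeasureTheory Filter Topology Set

namespace Pool.Agent.Work.MP_adbfe6_an.An

open Pool.Agent.Work.MP_adbfe6_an.Ext

/-- `x` and `x'` approach each other with the rate `c` and the constant `C` -/
def Rt {X : Type} [MetricSpace X] (T : X → X) (c : X → ℝ) (x x' : X) (C : ℝ) : Prop :=
  ∀ n : ℕ, dist (T^[n] x) (T^[n] x') ≤ C * cprod T c n x

/-- `g` is the holonomy from the fibre of `x` to the fibre of `x'` -/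
def Hl {X G : Type} [Group G] [TopologicalSpace G] (T : X → X) (a : X → G) (x x' : X) (g : G) :
    Prop :=
  Tendsto (fun n => (cyc T a n x')⁻¹ * cyc T a n x) atTop (𝓝 g)

section cprod

variable {X : Type} (T : X → X) (c : X → ℝ)

@[simp] theorem cprod_zero (x : X) : cprod T c 0 x = 1 := by simp [cprod]

theorem cprod_succ (n : ℕ) (x : X) : cprod T c (n + 1) x = cprod T c n x * c (T^[n] x) := by
  unfold cprod
  rw [Finset.prod_range_succ]

theorem cprod_add (n k : ℕ) (x : X) :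
    cprod T c (n + k) x = cprod T c n x * cprod T c k (T^[n] x) := by
  unfold cprod
  rw [Finset.prod_range_add]
  congr 1
  refine Finset.prod_congr rfl fun i _ => ?_
  rw [← Function.iterate_add_apply, add_comm]

variable {T c}

theorem cprod_pos (h : ∀ x, 0 < c x) (n : ℕ) (x : X) : 0 < cprod T c n x :=
  Finset.prod_pos fun _ _ => h _

variable [MetricSpace X]

theorem cprod_continuous (hT : Continuous T) (hc : Continuous c) (n : ℕ) :
    Continuous (cprod T c n) :=
  continuous_finsetProd _ fun k _ => hc.comp (hT.iterate k)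

theorem cprod_tendsto [CompactSpace X] (hc : Continuous c) (h0 : ∀ x, 0 < c x) (h1 : ∀ x, c x < 1)
    (x : X) : Tendsto (fun n => cprod T c n x) atTop (𝓝 0) := by
  obtain ⟨z, -, hz⟩ := isCompact_univ.exists_isMaxOn ⟨x, mem_univ x⟩ hc.continuousOn
  have hle : ∀ n, cprod T c n x ≤ c z ^ n := by
    intro n
    unfold cprod
    calc ∏ k ∈ Finset.range n, c (T^[k] x) ≤ ∏ _k ∈ Finset.range n, c z :=
          Finset.prod_le_prod (fun _ _ => (h0 _).le) fun k _ => hz (mem_univ _)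
      _ = c z ^ n := by rw [Finset.prod_const, Finset.card_range]
  exact squeeze_zero (fun n => (cprod_pos h0 n x).le) hle
    (tendsto_pow_atTop_nhds_zero_of_lt_one (h0 z).le (h1 z))

theorem Rt.nonneg {x x' : X} {C : ℝ} (h : Rt T c x x' C) : 0 ≤ C := by
  have := (dist_nonneg).trans (h 0)
  rwa [cprod_zero, mul_one] at this

theorem Rt.iterate {x x' : X} {C : ℝ} (h : Rt T c x x' C) (n : ℕ) :
    Rt T c (T^[n] x) (T^[n] x') (C * cprod T c n x) := by
  intro k
  have := h (n + k)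
  rw [cprod_add, add_comm n k, Function.iterate_add_apply, Function.iterate_add_apply,
    ← mul_assoc] at this
  exact this

theorem Rt.asym [CompactSpace X] (hc : Continuous c) (h0 : ∀ x, 0 < c x) (h1 : ∀ x, c x < 1)
    {x x' : X} {C : ℝ} (h : Rt T c x x' C) : Asym T x x' := by
  have := (cprod_tendsto (T := T) hc h0 h1 x).const_mul C
  rw [mul_zero] at this
  exact squeeze_zero (fun n => dist_nonneg) h this

theorem Rt.refl (x : X) : Rt T c x x 0 := by
  intro n
  rw [dist_self, zero_mul]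

end cprod

section hl

variable {X G : Type} [Group G] [TopologicalSpace G] {T : X → X} {a : X → G}

theorem Hl.refl (x : X) : Hl T a x x 1 := by
  unfold Hl
  simp only [inv_mul_cancel]
  exact tendsto_const_nhds

theorem Hl.unique [T2Space G] {x x' : X} {g g' : G} (h : Hl T a x x' g) (h' : Hl T a x x' g') :
    g = g' := tendsto_nhds_unique h h'

theorem cyc_add (n k : ℕ) (x : X) : cyc T a (k + n) x = cyc T a k (T^[n] x) * cyc T a n x := by
  induction k with
  | zero => rw [zero_add]; simp [cyc]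
  | succ k ih =>
    rw [show k + 1 + n = (k + n) + 1 by ring, cyc, ih, cyc, mul_assoc,
      Function.iterate_add_apply]

/-- holonomies are equivariant -/
theorem Hl.iterate [IsTopologicalGroup G] {x x' : X} {g : G} (h : Hl T a x x' g) (n : ℕ) :
    Hl T a (T^[n] x) (T^[n] x') (cyc T a n x' * g * (cyc T a n x)⁻¹) := by
  have h1 : Tendsto (fun k => (cyc T a (k + n) x')⁻¹ * cyc T a (k + n) x) atTop (𝓝 g) :=
    (tendsto_add_atTop_iff_nat n).mpr h
  have h2 := (h1.const_mul (cyc T a n x')).mul_const (cyc T a n x)⁻¹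
  refine (tendsto_congr fun k => ?_).mpr h2
  rw [cyc_add, cyc_add]
  group

end hl

/-- exchange of the two coordinates of the boxes -/
theorem Boxes.swap {X P Q : Type} [TopologicalSpace X] [MeasurableSpace X] [TopologicalSpace P]
    [MeasurableSpace P] [TopologicalSpace Q] [MeasurableSpace Q] {m : Measure X} {p : Measure P}
    {q : Measure Q} [SFinite p] [SFinite q] {b : ℕ → P × Q → X} (h : Boxes m p q b) :
    Boxes m q p (fun i (z : Q × P) => b i z.swap) := by
  refine ⟨fun i => ?_, fun x => ?_, fun i Z hZ => ?_⟩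
  · exact (h.emb i).comp (Homeomorph.prodComm Q P).isOpenEmbedding
  · obtain ⟨i, z, hz⟩ := h.cover x
    exact ⟨i, z.swap, by rw [Prod.swap_swap]; exact hz⟩
  · have h1 : range (fun z : Q × P => b i z.swap) = range (b i) := by
      ext x
      constructor
      · rintro ⟨z, rfl⟩
        exact ⟨z.swap, rfl⟩
      · rintro ⟨z, rfl⟩
        exact ⟨z.swap, by simp⟩
    rw [h1, ← h.null i Z hZ]
    have h2 : (fun z : Q × P => b i z.swap) ⁻¹' Z =
        (MeasurableEquiv.prodComm : Q × P ≃ᵐ P × Q) ⁻¹' (b i ⁻¹' Z) := rfl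
    have h3 : MeasurePreserving (MeasurableEquiv.prodComm : Q × P ≃ᵐ P × Q) (q.prod p)
      (p.prod q) := Measure.measurePreserving_swap
    rw [h2, h3.measure_preimage_equiv]

end Pool.Agent.Work.MP_adbfe6_an.An

end

section

/-!
# Skew products over systems with a local product structure: statements of the items
-/

set_option autoImplicit false

open MeasureTheory Filter Topology Set

namespace Pool.Agent.Work.MP_adbfe6_an.An

open Pool.Agent.Work.MP_adbfe6_an.Ext
open Pool.PSTow (cmp)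

/-! ### Mixing -/

/-- `F` is constant on asymptotic pairs inside a set of full measure -/
def InvF {M : Type} [MetricSpace M] [MeasurableSpace M] (f : M → M) (μ : Measure M)
    (F : M → ℝ) : Prop :=
  ∃ R : Set M, (∀ᵐ z ∂μ, z ∈ R) ∧ ∀ x ∈ R, ∀ y ∈ R, Asym f x y → F x = F y

/-- [Sub] these functions are a closed subspace -/
def StSub : Prop := ∀ (M : Type) [MetricSpace M] [MeasurableSpace M] (μ : Measure M)
  [IsProbabilityMeasure μ] (f : M → M), ∃ C : Submodule ℝ (Lp ℝ 2 μ),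
    IsClosed (C : Set (Lp ℝ 2 μ)) ∧ ∀ F : Lp ℝ 2 μ, F ∈ C ↔ InvF f μ F

/-- [CInv] limits of convex combinations of the images of a continuous function -/
def StCInv : Prop := ∀ (M : Type) [MetricSpace M] [CompactSpace M] [MeasurableSpace M]
  [BorelSpace M] (μ : Measure M) [IsProbabilityMeasure μ] (f : M → M)
  (hf : MeasurePreserving f μ μ) (K : C(M, ℝ)) (d : ℕ → Lp ℝ 2 μ) (c : Lp ℝ 2 μ),
  (∀ j, d j ∈ convexHull ℝ ((fun n => (cmp f hf)^[n] (ContinuousMap.toLp 2 μ ℝ K)) '' Ici j)) →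
  Tendsto d atTop (𝓝 c) → InvF f μ c

/-- [Orth] functions which are orthogonal to the invariant functions have decaying correlations -/
def StOrth : Prop := ∀ (M : Type) [MetricSpace M] [CompactSpace M] [MeasurableSpace M]
  [BorelSpace M] (μ : Measure M) [IsProbabilityMeasure μ] (f : M → M)
  (hf : MeasurePreserving f μ μ) (C : Submodule ℝ (Lp ℝ 2 μ)),
  (∀ F : Lp ℝ 2 μ, InvF f μ F → F ∈ C) → Cᗮ ≤ PSG.Dec (cmp f hf)

/-- [Mix] mixing criterion for functions -/
def StMix : Prop := ∀ (M : Type) [MetricSpace M] [CompactSpace M] [MeasurableSpace M]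
  [BorelSpace M] (μ : Measure M) [IsProbabilityMeasure μ] (f : M ≃ₜ M),
  MeasurePreserving f μ μ → (∀ F : Lp ℝ 2 μ, InvF f μ F → InvF f.symm μ F →
    ∃ c : ℝ, ∀ᵐ z ∂μ, F z = c) → Mixing f μ

/-- [Crit] mixing criterion for sets -/
def StCrit : Prop := ∀ (M : Type) [MetricSpace M] [CompactSpace M] [MeasurableSpace M]
  [BorelSpace M] (μ : Measure M) [IsProbabilityMeasure μ] (f : M ≃ₜ M),
  MeasurePreserving f μ μ → (∀ S : Set M, MeasurableSet S →
    (∃ R : Set M, (∀ᵐ z ∂μ, z ∈ R) ∧ ∀ x ∈ R, ∀ y ∈ R, Asym f x y ∨ Asym f.symm x y →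
      (x ∈ S ↔ y ∈ S)) → EventuallyConst S (ae μ)) → Mixing f μ

/-- [Erg] mixing implies ergodicity -/
def StErg : Prop := ∀ (M : Type) [MeasurableSpace M] (μ : Measure M) [IsProbabilityMeasure μ]
  (f : M → M), MeasurePreserving f μ μ → Mixing f μ → Ergodic f μ

/-! ### Holonomies -/

/-- [HPt] holonomies exist -/
def StHPt : Prop := ∀ (X G N : Type) [MetricSpace X] [Group G] [TopologicalSpace G]
  [IsTopologicalGroup G] [MulAction G N] [MetricSpace N] [CompactSpace N] [ContinuousSMul G N],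
  IsClosedEmbedding (actMap N G) → ∀ (T : X → X) (a : X → G) (c : X → ℝ), (∀ x, 0 < c x) →
  Dominated N T a c → InvLip N a → ∃ K r : ℝ, 0 ≤ K ∧ 0 < r ∧ r < 1 ∧
    ∀ (x x' : X) (C : ℝ), Rt T c x x' C → ∃ g : G, Hl T a x x' g ∧
      ∀ (n : ℕ) (y : N), dist (((cyc T a n x)⁻¹ * cyc T a n x') • y) (g⁻¹ • y) ≤ K * C * r ^ n

/-- [HCt] holonomies are continuous -/
def StHCt : Prop := ∀ (X G N W : Type) [MetricSpace X] [Group G] [TopologicalSpace G]
  [IsTopologicalGroup G] [MulAction G N] [MetricSpace N] [CompactSpace N] [ContinuousSMul G N]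
  [TopologicalSpace W], IsClosedEmbedding (actMap N G) → ∀ (T : X → X) (a : X → G) (c : X → ℝ),
  Continuous T → Continuous a → (∀ x, 0 < c x) → Dominated N T a c → InvLip N a →
  ∀ (x x' : W → X) (ρ : W → ℝ), Continuous x → Continuous x' → Continuous ρ →
  (∀ w, Rt T c (x w) (x' w) (ρ w)) → ∃ h : W → G, Continuous h ∧ ∀ w, Hl T a (x w) (x' w) (h w)

/-- [LOf] points which are related by a holonomy are asymptotic -/
def StLOf : Prop := ∀ (X G N : Type) [MetricSpace X] [CompactSpace X] [Group G]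
  [TopologicalSpace G] [IsTopologicalGroup G] [MulAction G N] [MetricSpace N] [CompactSpace N]
  [ContinuousSMul G N], IsClosedEmbedding (actMap N G) →
  ∀ (T : X → X) (a : X → G) (c : X → ℝ), Continuous c → (∀ x, 0 < c x) → (∀ x, c x < 1) →
  Dominated N T a c → InvLip N a → ∀ (x x' : X) (C : ℝ) (g : G), Rt T c x x' C →
  Hl T a x x' g → ∀ y : N, Asym (skew T a) (x, y) (x', g • y)

/-- [LTo] points of a leaf are related by a holonomy -/
def StLTo : Prop := ∀ (X G N : Type) [MetricSpace X] [Group G] [TopologicalSpace G]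
  [IsTopologicalGroup G] [MulAction G N] [MetricSpace N] [CompactSpace N]
  [ContinuousSMul G N],
  IsClosedEmbedding (actMap N G) → ∀ (T : X → X) (a : X → G) (c : X → ℝ), (∀ x, 0 < c x) →
  Dominated N T a c → InvLip N a → ∀ (p p' : X × N) (C : ℝ), Rt T c p.1 p'.1 C →
  Leaf T a c p p' → ∃ g : G, Hl T a p.1 p'.1 g ∧ p'.2 = g • p.2

/-! ### Families of plaques -/

/-- a countable family of charts such that points of one stable set lie in one plaque -/
structure Fam {X P Q : Type} [MetricSpace X] [MeasurableSpace X] [TopologicalSpace P]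
    [MeasurableSpace P] [TopologicalSpace Q] [MeasurableSpace Q] (T : X → X) (c : X → ℝ)
    (m : Measure X) (p : Measure P) (q : Measure Q) (β : ℕ → P × Q → X) : Prop where
  cont : ∀ l, Continuous (β l)
  null : ∀ l (Z : Set X), MeasurableSet Z → m Z = 0 → (p.prod q) (β l ⁻¹' Z) = 0
  rate : ∀ l, ∃ ρ : P × P × Q → ℝ, Continuous ρ ∧
    ∀ s s' u, Rt T c (β l (s, u)) (β l (s', u)) (ρ (s, s', u))
  all : ∀ x x', Asym T x x' → ∃ (l : ℕ) (s s' : P) (u : Q), β l (s, u) = x ∧ β l (s', u) = x'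

/-- [Fam] such a family exists -/
def StFam : Prop := ∀ (X P Q : Type) [MetricSpace X] [CompactSpace X] [MeasurableSpace X]
  [BorelSpace X] [TopologicalSpace P] [MeasurableSpace P] [TopologicalSpace Q]
  [MeasurableSpace Q] (m : Measure X) (p : Measure P) (q : Measure Q) (b : ℕ → P × Q → X)
  (T : X ≃ₜ X) (c : X → ℝ), MeasurePreserving T m m → Boxes m p q b → Plaques T c b →
  ∃ β : ℕ → P × Q → X, Fam T c m p q β

/-! ### Charts -/

/-- [X0] the good points of the base -/
def StX0 : Prop := ∀ (X G N : Type) [MeasurableSpace X] [Group G] [MulAction G N]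
  [TopologicalSpace G] [MetricSpace N] [CompactSpace N] [MeasurableSpace N] [BorelSpace N]
  [ContinuousSMul G N] (m : Measure X) [IsProbabilityMeasure m] (ν : Measure N)
  [IsProbabilityMeasure ν], (∀ g : G, MeasurePreserving (fun y : N => g • y) ν ν) →
  ∀ (S R : Set (X × N)) (A : X × N → X × N → Prop), (∀ᵐ z ∂(m.prod ν), z ∈ R) →
  (∀ z ∈ R, ∀ z' ∈ R, A z z' → (z ∈ S ↔ z' ∈ S)) →
  ∃ X0 : Set X, MeasurableSet X0 ∧ m X0ᶜ = 0 ∧ ∀ x ∈ X0, ∀ x' ∈ X0, ∀ g : G,
    (∀ y : N, A (x, y) (x', g • y)) → Rel ν S x x' g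

/-- [Cht] the transfer function of a box -/
def StCht : Prop := ∀ (X G N P Q : Type) [MeasurableSpace X] [Group G] [MulAction G N]
  [TopologicalSpace G] [IsTopologicalGroup G] [MetricSpace N] [MeasurableSpace N]
  [ContinuousSMul G N] [TopologicalSpace P] [MeasurableSpace P] [TopologicalSpace Q]
  [MeasurableSpace Q] (ν : Measure N), (∀ g : G, MeasurePreserving (fun y : N => g • y) ν ν) →
  ∀ (p : Measure P) [SigmaFinite p] [NeZero p] (q : Measure Q) [SigmaFinite q] [NeZero q]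
  (S : Set (X × N)) (b : P × Q → X) (X0 : Set X), (∀ᵐ z ∂(p.prod q), b z ∈ X0) →
  ∀ (hs : P × P × Q → G) (hu : Q × Q × P → G), Continuous hs → Continuous hu →
  (∀ s s' u, b (s, u) ∈ X0 → b (s', u) ∈ X0 → Rel ν S (b (s, u)) (b (s', u)) (hs (s, s', u))) →
  (∀ u u' s, b (s, u) ∈ X0 → b (s, u') ∈ X0 → Rel ν S (b (s, u)) (b (s, u')) (hu (u, u', s))) →
  ∃ (x : X) (κ : P × Q → G), Continuous κ ∧ ∀ᵐ z ∂(p.prod q), Rel ν S x (b z) (κ z)

/-- [Cons] the transfer functions of two boxes and the holonomies along a family of plaques -/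
def StCons : Prop := ∀ (X G N Z P Q : Type) [TopologicalSpace X] [MeasurableSpace X]
  [BorelSpace X] [Group G] [TopologicalSpace G] [IsTopologicalGroup G] [MulAction G N]
  [MetricSpace N] [CompactSpace N] [MeasurableSpace N] [BorelSpace N] [ContinuousSMul G N]
  [TopologicalSpace Z] [MeasurableSpace Z] [BorelSpace Z]
  [TopologicalSpace P] [SecondCountableTopology P] [MeasurableSpace P] [BorelSpace P]
  [TopologicalSpace Q] [SecondCountableTopology Q] [MeasurableSpace Q] [BorelSpace Q]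
  (ν : Measure N) [IsProbabilityMeasure ν],
  (∀ g : G, MeasurePreserving (fun y : N => g • y) ν ν) →
  ∀ (m : Measure X) (ζ : Measure Z) (p : Measure P) [SigmaFinite p] [p.IsOpenPosMeasure]
  (q : Measure Q) [SigmaFinite q] [q.IsOpenPosMeasure] (S : Set (X × N)), MeasurableSet S →
  ∀ (X0 : Set X), MeasurableSet X0 → m X0ᶜ = 0 → ∀ (b₁ b₂ : Z → X),
  IsOpenEmbedding b₁ → IsOpenEmbedding b₂ →
  (∀ E : Set X, MeasurableSet E → (ζ (b₁ ⁻¹' E) = 0 ↔ m (E ∩ range b₁) = 0)) →
  (∀ E : Set X, MeasurableSet E → (ζ (b₂ ⁻¹' E) = 0 ↔ m (E ∩ range b₂) = 0)) →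
  ∀ (x₁ x₂ : X) (κ₁ κ₂ : Z → G), Continuous κ₁ → Continuous κ₂ →
  (∀ᵐ z ∂ζ, Rel ν S x₁ (b₁ z) (κ₁ z)) → (∀ᵐ z ∂ζ, Rel ν S x₂ (b₂ z) (κ₂ z)) →
  ∀ (β : P × Q → X), Continuous β →
  (∀ E : Set X, MeasurableSet E → m E = 0 → (p.prod q) (β ⁻¹' E) = 0) →
  ∀ (h : P × P × Q → G), Continuous h →
  (∀ s s' u, β (s, u) ∈ X0 → β (s', u) ∈ X0 → Rel ν S (β (s, u)) (β (s', u)) (h (s, s', u))) →
  ∀ s s' u z z', β (s, u) = b₁ z → β (s', u) = b₂ z' →
    Rel ν S x₁ x₂ ((κ₂ z')⁻¹ * h (s, s', u) * κ₁ z)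

/-- [Conn] the boxes are connected -/
def StConn : Prop := ∀ (X G N P Q : Type) [TopologicalSpace X] [MeasurableSpace X]
  [BorelSpace X] [Group G] [MulAction G N] [MeasurableSpace N] [TopologicalSpace P]
  [MeasurableSpace P] [TopologicalSpace Q] [MeasurableSpace Q] (m : Measure X) [SFinite m]
  (ν : Measure N) [IsProbabilityMeasure ν],
  (∀ g : G, MeasurePreserving (fun y : N => g • y) ν ν) →
  ∀ (p : Measure P) [SigmaFinite p] [NeZero p] (q : Measure Q) [SigmaFinite q] [NeZero q]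
  (b : ℕ → P × Q → X), Boxes m p q b → ∀ (S : Set (X × N)) (x : ℕ → X) (κ : ℕ → P × Q → G)
  (Lk : X → X → G → Prop), (∀ x, Lk x x 1) →
  (∀ i j z z' g, Lk (b i z) (b j z') g →
    Rel ν S (x i) (x j) ((κ j z')⁻¹ * g * κ i z)) → ∀ E : X × N → X × N → Prop,
  (∀ z z', E z z' → ∃ g, Lk z.1 z'.1 g) →
  (∀ A B : Set (X × N), MeasurableSet A → MeasurableSet B → 0 < (m.prod ν) A →
    0 < (m.prod ν) B → ∃ z ∈ A, ∃ z' ∈ B, Relation.ReflTransGen E z z') →
  ∀ i j, ∃ g : G, Rel ν S (x i) (x j) g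

/-- [Spr] the saturated version of `S` -/
def StSpr : Prop := ∀ (X G N P Q : Type) [TopologicalSpace X] [MeasurableSpace X]
  [BorelSpace X] [Group G] [TopologicalSpace G] [IsTopologicalGroup G] [LocallyCompactSpace G]
  [SecondCountableTopology G] [MulAction G N] [MetricSpace N] [CompactSpace N]
  [MeasurableSpace N] [BorelSpace N] [ContinuousSMul G N]
  [TopologicalSpace P] [SecondCountableTopology P] [MeasurableSpace P] [BorelSpace P]
  [TopologicalSpace Q] [SecondCountableTopology Q] [MeasurableSpace Q] [BorelSpace Q]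
  (m : Measure X) [IsProbabilityMeasure m] (ν : Measure N) [IsProbabilityMeasure ν],
  (∀ g : G, MeasurePreserving (fun y : N => g • y) ν ν) →
  ∀ (p : Measure P) [SigmaFinite p] (q : Measure Q) [SigmaFinite q] (b : ℕ → P × Q → X),
  Boxes m p q b → ∀ (S : Set (X × N)), MeasurableSet S → ∀ (x : ℕ → X) (κ : ℕ → P × Q → G),
  (∀ i, Continuous (κ i)) → (∀ i, ∀ᵐ z ∂(p.prod q), Rel ν S (x i) (b i z) (κ i z)) →
  ∀ (Lk : X → X → G → Prop), (∀ x, Lk x x 1) →
  (∀ i j z z' g, Lk (b i z) (b j z') g → Rel ν S (x i) (x j) ((κ j z')⁻¹ * g * κ i z)) →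
  (∀ i j, ∃ g : G, Rel ν S (x i) (x j) g) →
  ∃ S' : Set (X × N), MeasurableSet S' ∧ S' =ᵐ[m.prod ν] S ∧
    ∀ x x' g, Lk x x' g → ∀ y : N, ((x', g • y) ∈ S' ↔ (x, y) ∈ S')

/-! ### The result -/

/-- the main theorem -/
def StMain : Prop := ∀ (X P Q G N : Type) [MetricSpace X] [CompactSpace X] [MeasurableSpace X]
  [BorelSpace X] [TopologicalSpace P] [SecondCountableTopology P] [MeasurableSpace P]
  [BorelSpace P] [TopologicalSpace Q] [SecondCountableTopology Q] [MeasurableSpace Q]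
  [BorelSpace Q] [Group G] [TopologicalSpace G] [IsTopologicalGroup G] [LocallyCompactSpace G]
  [MulAction G N] [MetricSpace N] [CompactSpace N] [MeasurableSpace N] [BorelSpace N]
  [ContinuousSMul G N] (m : Measure X) [IsProbabilityMeasure m] (p : Measure P) [SigmaFinite p]
  [p.IsOpenPosMeasure] (q : Measure Q) [SigmaFinite q] [q.IsOpenPosMeasure] (ν : Measure N)
  [IsProbabilityMeasure ν] (b : ℕ → P × Q → X) (T : X ≃ₜ X) (cs cu : X → ℝ) (a : X → G),
  HypBase m p q b T cs cu → Fibre (G := G) N ν → PHyp N T a cs cu →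
  EssAcc T a cs cu (m.prod ν) →
  Ergodic (skew T a : X × N → X × N) (m.prod ν) ∧ Mixing (skew T a : X × N → X × N) (m.prod ν)

end Pool.Agent.Work.MP_adbfe6_an.An

end
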