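import Pool.Agent.Work.MP_adbfe6_an.Bd.B04

/-! Bundle of small proof modules (one section per former module). -/

section

/-!
# CInv: limits of convex combinations of the images of a continuous function
-/

set_option autoImplicit false

open MeasureTheory Filter Topology Set

namespace Pool.Agent.Work.MP_adbfe6_an.An

open Pool.Agent.Work.MP_adbfe6_an.Ext
open Pool.PSTow (cmp)

namespace AuxCInv

variable {M : Type} [MetricSpace M] [CompactSpace M] [MeasurableSpace M] [BorelSpace M]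
  (μ : Measure M) [IsProbabilityMeasure μ]

/-- the control of the oscillation -/
def PJ (f : M → M) (K : C(M, ℝ)) (j : ℕ) : Set (Lp ℝ 2 μ) :=
  {d | ∃ D : M → ℝ, (d : M → ℝ) =ᵐ[μ] D ∧ ∀ x y ε,
    (∀ n, j ≤ n → |K (f^[n] x) - K (f^[n] y)| ≤ ε) → |D x - D y| ≤ ε}

theorem convex_PJ (f : M → M) (K : C(M, ℝ)) (j : ℕ) : Convex ℝ (PJ μ f K j) := by
  rintro d ⟨D, hD, hD'⟩ e ⟨E, hE, hE'⟩ a b ha hb hab
  refine ⟨fun z => a * D z + b * E z, ?_, fun x y ε h => ?_⟩
  · filter_upwards [hD, hE, Lp.coeFn_add (a • d) (b • e), Lp.coeFn_smul a d,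
      Lp.coeFn_smul b e] with z h1 h2 h3 h4 h5
    rw [h3, Pi.add_apply, h4, h5, Pi.smul_apply, Pi.smul_apply, smul_eq_mul, smul_eq_mul, h1, h2]
  · have h1 := hD' x y ε h
    have h2 := hE' x y ε h
    calc |a * D x + b * E x - (a * D y + b * E y)| = |a * (D x - D y) + b * (E x - E y)| := by
          congr 1; ring
      _ ≤ |a * (D x - D y)| + |b * (E x - E y)| := abs_add_le _ _
      _ = a * |D x - D y| + b * |E x - E y| := by
          rw [abs_mul, abs_mul, abs_of_nonneg ha, abs_of_nonneg hb]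
      _ ≤ a * ε + b * ε := add_le_add (mul_le_mul_of_nonneg_left h1 ha)
          (mul_le_mul_of_nonneg_left h2 hb)
      _ = ε := by rw [← add_mul, hab, one_mul]

theorem iter (f : M → M) (hf : MeasurePreserving f μ μ) (K : C(M, ℝ)) (n : ℕ) :
    (((cmp f hf)^[n] (ContinuousMap.toLp 2 μ ℝ K) : Lp ℝ 2 μ) : M → ℝ) =ᵐ[μ]
      fun z => K (f^[n] z) := by
  induction n with
  | zero => exact ContinuousMap.coeFn_toLp μ K
  | succ n ih =>
    rw [Function.iterate_succ_apply']
    refine (Pool.PSTow.cmp_coe f hf _).trans ?_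
    exact hf.quasiMeasurePreserving.ae_eq_comp ih

theorem mem_PJ (f : M → M) (hf : MeasurePreserving f μ μ) (K : C(M, ℝ)) (j : ℕ) (d : Lp ℝ 2 μ)
    (hd : d ∈ convexHull ℝ
      ((fun n => (cmp f hf)^[n] (ContinuousMap.toLp 2 μ ℝ K)) '' Ici j)) : d ∈ PJ μ f K j := by
  refine convexHull_min ?_ (convex_PJ μ f K j) hd
  rintro _ ⟨n, hn, rfl⟩
  exact ⟨fun z => K (f^[n] z), iter μ f hf K n, fun x y ε h => h n hn⟩

end AuxCInv

open AuxCInv in
theorem pr_CInv : StCInv := by
  intro M _ _ _ _ μ _ f hf K d c hd hc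
  have h1 : ∀ j, d j ∈ PJ μ f K j := fun j => mem_PJ μ f hf K j (d j) (hd j)
  choose D hD hD' using h1
  obtain ⟨ns, hns, hlim⟩ := (tendstoInMeasure_of_tendsto_Lp hc).exists_seq_tendsto_ae
  refine ⟨{z | (∀ j, d j z = D j z) ∧ Tendsto (fun i => d (ns i) z) atTop (𝓝 (c z))}, ?_, ?_⟩
  · filter_upwards [ae_all_iff.mpr hD, hlim] with z h2 h3
    exact ⟨h2, h3⟩
  · rintro x ⟨hx, hx'⟩ y ⟨hy, hy'⟩ hxy
    have hK := CompactSpace.uniformContinuous_of_continuous K.continuous
    rw [Metric.uniformContinuous_iff] at hK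
    have key : ∀ ε > (0 : ℝ), |c x - c y| ≤ ε := by
      intro ε hε
      obtain ⟨δ, hδ, hKδ⟩ := hK ε hε
      obtain ⟨N, hN⟩ := (hxy.eventually (gt_mem_nhds hδ)).exists_forall_of_atTop
      have h4 : ∀ j, N ≤ j → |D j x - D j y| ≤ ε := by
        intro j hj
        refine hD' j x y ε fun n hn => ?_
        have h5 := hKδ (hN n (hj.trans hn))
        rw [Real.dist_eq] at h5
        exact h5.le
      refine le_of_tendsto (hx'.sub hy').abs ?_
      filter_upwards [eventually_ge_atTop N] with i hi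
      rw [hx, hy]
      exact h4 _ (hi.trans (hns.id_le i))
    by_contra hne
    have h6 : 0 < |c x - c y| := abs_pos.mpr (sub_ne_zero.mpr hne)
    have h7 := key (|c x - c y| / 2) (by positivity)
    linarith

end Pool.Agent.Work.MP_adbfe6_an.An

end

section

set_option autoImplicit false

/-!
# Block An, item Cht: the transfer function of a box
-/

open MeasureTheory Filter Topology Set

namespace Pool.Agent.Work.MP_adbfe6_an.An

open Pool.Agent.Work.MP_adbfe6_an.Ext

theorem pr_Cht : StCht := by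
  intro X G N P Q _ _ _ _ _ _ _ _ _ _ _ _ ν hm p _ _ q _ _ S b X0 hX0 hs hu chs chu Hs Hu
  have h1 : ∀ᵐ u ∂q, ∀ᵐ s ∂p, b (s, u) ∈ X0 := by
    have h2 : ∀ᵐ z ∂(q.prod p), b z.swap ∈ X0 :=
      (Measure.measurePreserving_swap (μ := q) (ν := p)).quasiMeasurePreserving.ae hX0
    exact Measure.ae_ae_of_ae_prod h2
  obtain ⟨u0, hu0⟩ := h1.exists
  obtain ⟨s0, hs0⟩ := hu0.exists
  refine ⟨b (s0, u0), fun z => hu (u0, z.2, z.1) * hs (s0, z.1, u0), ?_, ?_⟩
  · exact (chu.comp (by fun_prop)).mul (chs.comp (by fun_prop))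
  · have h3 : ∀ᵐ z ∂(p.prod q), b (z.1, u0) ∈ X0 := Measure.quasiMeasurePreserving_fst.ae hu0
    filter_upwards [hX0, h3] with z hz hz'
    exact rel_mul hm (Hs s0 z.1 u0 hs0 hz') (Hu u0 z.2 z.1 hz' hz)

end Pool.Agent.Work.MP_adbfe6_an.An

end

section

set_option autoImplicit false

open MeasureTheory Filter Topology Set

namespace Pool.Agent.Work.MP_adbfe6_an.An

open Pool.Agent.Work.MP_adbfe6_an.Ext

theorem pr_Conn : StConn := by
  intro X G N P Q _ _ _ _ _ _ _ _ _ _ m _ ν _ hmp p _ _ q _ _ b hb S x κ Lk hLk1 hcons E hE hEA i j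
  have hrm : ∀ i, MeasurableSet (range (b i)) := fun i => (hb.emb i).isOpen_range.measurableSet
  have hpos : ∀ i, 0 < m (range (b i)) := by
    intro i
    rw [pos_iff_ne_zero]
    intro h
    have h1 := (hb.null i univ MeasurableSet.univ).2 (by rw [univ_inter]; exact h)
    rw [preimage_univ, ← univ_prod_univ, Measure.prod_prod] at h1
    rcases mul_eq_zero.1 h1 with h2 | h2
    · exact NeZero.ne p (Measure.measure_univ_eq_zero.1 h2)
    · exact NeZero.ne q (Measure.measure_univ_eq_zero.1 h2)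
  have hpos' : ∀ i, 0 < (m.prod ν) (range (b i) ×ˢ (univ : Set N)) := by
    intro i
    rw [Measure.prod_prod, measure_univ, mul_one]
    exact hpos i
  obtain ⟨z, hz, z', hz', hch⟩ := hEA (range (b i) ×ˢ univ) (range (b j) ×ˢ univ)
    ((hrm i).prod MeasurableSet.univ) ((hrm j).prod MeasurableSet.univ) (hpos' i) (hpos' j)
  have key : ∀ w, Relation.ReflTransGen E z w → ∀ k z1, b k z1 = w.1 →
      ∃ g : G, Rel ν S (x i) (x k) g := by
    intro w hw
    induction hw with
    | refl =>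
      intro k z1 hk
      obtain ⟨z0, hz0⟩ := hz.1
      refine ⟨_, hcons i k z0 z1 1 ?_⟩
      rw [hz0, hk]
      exact hLk1 _
    | tail _ hE' ih =>
      intro k z1 hk
      obtain ⟨g, hg⟩ := hE _ _ hE'
      obtain ⟨k0, z0, hz0⟩ := hb.cover _
      obtain ⟨g0, hg0⟩ := ih k0 z0 hz0
      refine ⟨_, rel_mul hmp hg0 (hcons k0 k z0 z1 g ?_)⟩
      rw [hz0, hk]
      exact hg
  obtain ⟨z1, hz1⟩ := hz'.1
  exact key z' hch j z1 hz1

end Pool.Agent.Work.MP_adbfe6_an.An

end

section

/-!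
# The transfer functions of two boxes and the holonomies along a family of plaques
-/

set_option autoImplicit false

open MeasureTheory Filter Topology Set

namespace Pool.Agent.Work.MP_adbfe6_an.An

open Pool.Agent.Work.MP_adbfe6_an.Ext

namespace AuxCons

/-- the exceptional set of a chart -/
theorem exc {X Z PQ : Type} [TopologicalSpace X] [MeasurableSpace X] [BorelSpace X]
    [TopologicalSpace Z] [MeasurableSpace Z] [BorelSpace Z] [MeasurableSpace PQ]
    (m : Measure X) (ζ : Measure Z) (η : Measure PQ) (b : Z → X) (hb : IsOpenEmbedding b)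
    (hn : ∀ E : Set X, MeasurableSet E → (ζ (b ⁻¹' E) = 0 ↔ m (E ∩ range b) = 0))
    (R : Z → Prop) (hR : ∀ᵐ z ∂ζ, R z) (β : PQ → X)
    (hβ : ∀ E : Set X, MeasurableSet E → m E = 0 → η (β ⁻¹' E) = 0) :
    ∀ᵐ w ∂η, ∀ z, β w = b z → R z := by
  have h0 : ζ (toMeasurable ζ {z | ¬ R z}) = 0 := by
    rw [measure_toMeasurable]
    exact hR
  have hE : MeasurableSet (b '' toMeasurable ζ {z | ¬ R z}) :=
    hb.measurableEmbedding.measurableSet_image.mpr (measurableSet_toMeasurable _ _)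
  have h1 : m (b '' toMeasurable ζ {z | ¬ R z} ∩ range b) = 0 := by
    rw [← hn _ hE, preimage_image_eq _ hb.injective]
    exact h0
  rw [inter_eq_left.mpr (image_subset_range _ _)] at h1
  have h2 := hβ _ hE h1
  rw [ae_iff]
  refine measure_mono_null ?_ h2
  intro w hw
  have hw' : ¬ ∀ z, β w = b z → R z := hw
  push Not at hw'
  obtain ⟨z, hz, hz'⟩ := hw'
  exact ⟨z, subset_toMeasurable _ _ hz', hz.symm⟩

end AuxCons

open AuxCons in
theorem pr_Cons : StCons := by
  intro X G N Z P Q _ _ _ _ _ _ _ _ _ _ _ _ _ _ _ _ _ _ _ _ _ _ _ ν _ hm m ζ p _ _ q _ _ S hS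
    X0 hX0 hX0n b₁ b₂ hb₁ hb₂ hn₁ hn₂ x₁ x₂ κ₁ κ₂ hκ₁ hκ₂ hr₁ hr₂ β hβ hβn h hh hrel s s' u z z'
    hz hz'
  have : Nonempty Z := ⟨z⟩
  -- almost every point
  have e1 : ∀ᵐ w ∂(p.prod q), ∀ z, β w = b₁ z → Rel ν S x₁ (b₁ z) (κ₁ z) :=
    exc m ζ (p.prod q) b₁ hb₁ hn₁ _ hr₁ β hβn
  have e2 : ∀ᵐ w ∂(p.prod q), ∀ z, β w = b₂ z → Rel ν S x₂ (b₂ z) (κ₂ z) :=
    exc m ζ (p.prod q) b₂ hb₂ hn₂ _ hr₂ β hβn
  have e0 : ∀ᵐ w ∂(p.prod q), β w ∈ X0 := by
    have := hβn X0ᶜ hX0.compl hX0n
    rw [ae_iff]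
    exact this
  have q1 : Measure.QuasiMeasurePreserving (fun w : P × P × Q => (w.1, w.2.2))
      (p.prod (p.prod q)) (p.prod q) :=
    MeasureTheory.QuasiMeasurePreserving.prodMap (Measure.QuasiMeasurePreserving.id p)
      Measure.quasiMeasurePreserving_snd
  have q2 : Measure.QuasiMeasurePreserving (fun w : P × P × Q => (w.2.1, w.2.2))
      (p.prod (p.prod q)) (p.prod q) := Measure.quasiMeasurePreserving_snd
  -- the functions
  have c1 : Continuous fun w : P × P × Q => β (w.1, w.2.2) :=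
    hβ.comp (continuous_fst.prodMk (continuous_snd.comp continuous_snd))
  have c2 : Continuous fun w : P × P × Q => β (w.2.1, w.2.2) :=
    hβ.comp ((continuous_fst.comp continuous_snd).prodMk (continuous_snd.comp continuous_snd))
  set E₁ := hb₁.toOpenPartialHomeomorph b₁ with hE₁
  set E₂ := hb₂.toOpenPartialHomeomorph b₂ with hE₂
  set W : Set (P × P × Q) := {w | β (w.1, w.2.2) ∈ range b₁ ∧ β (w.2.1, w.2.2) ∈ range b₂}
    with hW
  have hWo : IsOpen W :=
    (hb₁.isOpen_range.preimage c1).inter (hb₂.isOpen_range.preimage c2)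
  let Fn : P × P × Q → G := fun w =>
    (κ₂ (E₂.symm (β (w.2.1, w.2.2))))⁻¹ * h w * κ₁ (E₁.symm (β (w.1, w.2.2)))
  have hFn : ContinuousOn Fn W := by
    have d1 : ContinuousOn (fun w : P × P × Q => E₁.symm (β (w.1, w.2.2))) W := by
      refine E₁.continuousOn_symm.comp c1.continuousOn fun w hw => ?_
      rw [hE₁, IsOpenEmbedding.toOpenPartialHomeomorph_target]
      exact hw.1
    have d2 : ContinuousOn (fun w : P × P × Q => E₂.symm (β (w.2.1, w.2.2))) W := by
      refine E₂.continuousOn_symm.comp c2.continuousOn fun w hw => ?_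
      rw [hE₂, IsOpenEmbedding.toOpenPartialHomeomorph_target]
      exact hw.2
    exact ((hκ₂.comp_continuousOn d2).inv.mul hh.continuousOn).mul (hκ₁.comp_continuousOn d1)
  have hC : IsClosed {g : G | Rel ν S x₁ x₂ g} := rel_closed hm hS x₁ x₂
  have hae : ∀ᵐ w ∂(p.prod (p.prod q)), w ∈ W → Fn w ∈ {g : G | Rel ν S x₁ x₂ g} := by
    filter_upwards [q1.ae e0, q2.ae e0, q1.ae e1, q2.ae e2] with w h01 h02 h1 h2 hw
    obtain ⟨⟨z₁, hz₁⟩, ⟨z₂, hz₂⟩⟩ := hw
    have r1 := h1 z₁ hz₁.symm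
    have r2 := h2 z₂ hz₂.symm
    have r0 := hrel w.1 w.2.1 w.2.2 h01 h02
    rw [← hz₁, ← hz₂] at r0
    have r3 := rel_mul hm (rel_mul hm r1 r0) (rel_inv hm r2)
    show Rel ν S x₁ x₂ _
    have f1 : E₁.symm (β (w.1, w.2.2)) = z₁ := by
      rw [← hz₁, hE₁]
      exact IsOpenEmbedding.toOpenPartialHomeomorph_left_inv _ hb₁
    have f2 : E₂.symm (β (w.2.1, w.2.2)) = z₂ := by
      rw [← hz₂, hE₂]
      exact IsOpenEmbedding.toOpenPartialHomeomorph_left_inv _ hb₂
    simp only [Fn]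
    rw [f1, f2, mul_assoc]
    exact r3
  have hop : IsOpen (W ∩ Fn ⁻¹' {g : G | Rel ν S x₁ x₂ g}ᶜ) :=
    hFn.isOpen_inter_preimage hWo hC.isOpen_compl
  have hnull : (p.prod (p.prod q)) (W ∩ Fn ⁻¹' {g : G | Rel ν S x₁ x₂ g}ᶜ) = 0 := by
    rw [ae_iff] at hae
    refine measure_mono_null ?_ hae
    intro w hw hc
    exact hw.2 (hc hw.1)
  have hemp := (hop.measure_eq_zero_iff (p.prod (p.prod q))).mp hnull
  have hmem : ((s, s', u) : P × P × Q) ∈ W := ⟨⟨z, hz.symm⟩, ⟨z', hz'.symm⟩⟩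
  have hfin : Fn (s, s', u) ∈ {g : G | Rel ν S x₁ x₂ g} := by
    by_contra hcon
    have : ((s, s', u) : P × P × Q) ∈ (∅ : Set (P × P × Q)) := by
      rw [← hemp]
      exact ⟨hmem, hcon⟩
    exact this
  have f1 : E₁.symm (β (s, u)) = z := by
    rw [hz, hE₁]
    exact IsOpenEmbedding.toOpenPartialHomeomorph_left_inv _ hb₁
  have f2 : E₂.symm (β (s', u)) = z' := by
    rw [hz', hE₂]
    exact IsOpenEmbedding.toOpenPartialHomeomorph_left_inv _ hb₂
  have hfin' : Rel ν S x₁ x₂ (Fn (s, s', u)) := hfin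
  simp only [Fn] at hfin'
  rw [f1, f2] at hfin'
  exact hfin'

end Pool.Agent.Work.MP_adbfe6_an.An

end

section

/-! Item [Crit]: the mixing criterion for sets. -/

set_option autoImplicit false

open MeasureTheory Filter Topology Set

namespace Pool.Agent.Work.MP_adbfe6_an.An

open Pool.Agent.Work.MP_adbfe6_an.Ext
open Pool.PSTow (cmp)

theorem pr_Crit (h : StMix) : StCrit := by
  intro M _ _ _ _ μ _ f hf hS
  refine h M μ f hf fun F hF1 hF2 => ?_
  obtain ⟨R1, hR1, hF1⟩ := hF1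
  obtain ⟨R2, hR2, hF2⟩ := hF2
  refine exists_eventuallyEq_const_of_forall_separating MeasurableSet fun U hU => ?_
  have hmeas : MeasurableSet ((F : M → ℝ) ⁻¹' U) :=
    (Lp.stronglyMeasurable F).measurable hU
  have key := hS ((F : M → ℝ) ⁻¹' U) hmeas ⟨R1 ∩ R2, by
    filter_upwards [hR1, hR2] with z h1 h2 using ⟨h1, h2⟩, fun x hx y hy hxy => by
      have e : (F : M → ℝ) x = F y := by
        rcases hxy with hxy | hxy
        · exact hF1 x hx.1 y hy.1 hxy
        · exact hF2 x hx.2 y hy.2 hxy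
      rw [mem_preimage, mem_preimage, e]⟩
  rw [eventuallyConst_set] at key
  exact key

end Pool.Agent.Work.MP_adbfe6_an.An

end

section

/-!
# Erg: mixing implies ergodicity
-/

set_option autoImplicit false

open MeasureTheory Filter Topology Set

namespace Pool.Agent.Work.MP_adbfe6_an.An

open Pool.Agent.Work.MP_adbfe6_an.Ext

theorem pr_Erg : StErg := by
  intro M _ μ _ f hf hmix
  refine ⟨hf, ⟨fun {s} hs hfs => ?_⟩⟩
  have h1 : ∀ n, (f^[n]) ⁻¹' s = s := by
    intro n
    induction n with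
    | zero => rfl
    | succ n ih => rw [Function.iterate_succ', preimage_comp, hfs, ih]
  have h2 := hmix s s hs hs
  have h3 : (fun n : ℕ => μ (f^[n] ⁻¹' s ∩ s)) = fun _ => μ s := by
    funext n
    rw [h1, inter_self]
  rw [h3] at h2
  have h4 : μ s = μ s * μ s := tendsto_nhds_unique tendsto_const_nhds h2
  rw [eventuallyConst_set']
  by_cases h0 : μ s = 0
  · left
    exact ae_eq_empty.mpr h0
  · right
    have h5 : μ s = 1 := by
      have h6 : μ s * 1 = μ s * μ s := by rw [mul_one]; exact h4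
      exact ((ENNReal.mul_right_inj h0 (measure_ne_top μ s)).mp h6).symm
    rw [ae_eq_univ, prob_compl_eq_zero_iff hs]
    exact h5

end Pool.Agent.Work.MP_adbfe6_an.An

end

section

/-!
# A countable family of charts adapted to the stable sets
-/

set_option autoImplicit false

open MeasureTheory Filter Topology Set

namespace Pool.Agent.Work.MP_adbfe6_an.An

open Pool.Agent.Work.MP_adbfe6_an.Ext

namespace AuxFam

section

variable {X : Type} [MetricSpace X] (T : X ≃ₜ X)

theorem left_inv (n : ℕ) (x : X) : (T.symm)^[n] (T^[n] x) = x :=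
  (Function.LeftInverse.iterate (fun y => T.symm_apply_apply y) n) x

theorem right_inv (n : ℕ) (x : X) : T^[n] ((T.symm)^[n] x) = x :=
  (Function.LeftInverse.iterate (fun y => T.apply_symm_apply y) n) x

/-- a rate for the images under the `n`-th power of `T` gives a rate -/
theorem rt_back {c : X → ℝ} (hc : ∀ x, 0 < c x) (n : ℕ) (x x' : X) (C : ℝ)
    (h : Rt T c (T^[n] x) (T^[n] x') C) :
    Rt T c x x' (C / cprod T c n x +
      ∑ k ∈ Finset.range n, dist (T^[k] x) (T^[k] x') / cprod T c k x) := by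
  have hp : ∀ k, 0 < cprod (T : X → X) c k x := fun k => cprod_pos hc k x
  have hC : 0 ≤ C := h.nonneg
  have hsum : 0 ≤ ∑ k ∈ Finset.range n, dist (T^[k] x) (T^[k] x') / cprod T c k x :=
    Finset.sum_nonneg fun k _ => div_nonneg dist_nonneg (hp k).le
  have hdiv : 0 ≤ C / cprod T c n x := div_nonneg hC (hp n).le
  intro k
  rcases lt_or_ge k n with hk | hk
  · have h1 : dist (T^[k] x) (T^[k] x') / cprod T c k x ≤
        ∑ j ∈ Finset.range n, dist (T^[j] x) (T^[j] x') / cprod T c j x :=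
      Finset.single_le_sum (f := fun j => dist (T^[j] x) (T^[j] x') / cprod T c j x)
        (fun j _ => div_nonneg dist_nonneg (hp j).le) (Finset.mem_range.2 hk)
    have h2 : dist (T^[k] x) (T^[k] x') =
        dist (T^[k] x) (T^[k] x') / cprod T c k x * cprod T c k x :=
      (div_mul_cancel₀ _ (hp k).ne').symm
    rw [h2]
    exact mul_le_mul_of_nonneg_right (by linarith) (hp k).le
  · obtain ⟨j, rfl⟩ := Nat.exists_eq_add_of_le hk
    have h1 := h j
    rw [← Function.iterate_add_apply, ← Function.iterate_add_apply, add_comm j n] at h1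
    have h2 : C * cprod T c j (T^[n] x) = C / cprod T c n x * cprod T c (n + j) x := by
      rw [cprod_add]
      field_simp [(hp n).ne']
    rw [h2] at h1
    exact h1.trans (mul_le_mul_of_nonneg_right (by linarith) (hp _).le)

end

end AuxFam

open AuxFam in
/-- [Fam] -/
theorem pr_Fam : StFam := by
  intro X P Q _ _ _ _ _ _ _ _ m p q b T c hT hB hP
  have hTs : MeasurePreserving T.symm m m := by
    have := MeasurePreserving.symm T.toMeasurableEquiv hT
    exact this
  refine ⟨fun l z => (T.symm)^[l.unpair.2] (b l.unpair.1 z), ?_, ?_, ?_, ?_⟩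
  · intro l
    exact (T.symm.continuous.iterate _).comp (hB.emb _).continuous
  · intro l Z hZ hZ0
    have h1 : MeasurePreserving ((T.symm)^[l.unpair.2]) m m := hTs.iterate _
    have h2 : m ((T.symm)^[l.unpair.2] ⁻¹' Z) = 0 := by
      rw [h1.measure_preimage hZ.nullMeasurableSet, hZ0]
    have h3 := (hB.null l.unpair.1 ((T.symm)^[l.unpair.2] ⁻¹' Z) (h1.measurable hZ)).2
      (measure_mono_null inter_subset_left h2)
    exact h3
  · intro l
    obtain ⟨ρ, hρ, hr⟩ := hP.rate l.unpair.1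
    set n := l.unpair.2 with hn
    set i := l.unpair.1 with hi
    have hc1 : Continuous fun z : P × P × Q => (T.symm)^[n] (b i (z.1, z.2.2)) :=
      (T.symm.continuous.iterate _).comp ((hB.emb i).continuous.comp (by fun_prop))
    have hc2 : Continuous fun z : P × P × Q => (T.symm)^[n] (b i (z.2.1, z.2.2)) :=
      (T.symm.continuous.iterate _).comp ((hB.emb i).continuous.comp (by fun_prop))
    have hcp : ∀ k, Continuous fun z : P × P × Q =>
        cprod (T : X → X) c k ((T.symm)^[n] (b i (z.1, z.2.2))) := fun k =>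
      (cprod_continuous T.continuous hP.cont k).comp hc1
    refine ⟨fun z => ρ z / cprod T c n ((T.symm)^[n] (b i (z.1, z.2.2))) +
      ∑ k ∈ Finset.range n, dist (T^[k] ((T.symm)^[n] (b i (z.1, z.2.2))))
        (T^[k] ((T.symm)^[n] (b i (z.2.1, z.2.2)))) /
          cprod T c k ((T.symm)^[n] (b i (z.1, z.2.2))), ?_, ?_⟩
    · refine Continuous.add (hρ.div (hcp n) fun z => (cprod_pos hP.pos _ _).ne') ?_
      refine continuous_finsetSum _ fun k _ => ?_
      exact (((T.continuous.iterate k).comp hc1).dist ((T.continuous.iterate k).comp hc2)).div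
        (hcp k) fun z => (cprod_pos hP.pos _ _).ne'
    · intro s s' u
      refine rt_back T hP.pos n _ _ _ ?_
      rw [right_inv, right_inv]
      exact fun k => hr s s' u k
  · intro x x' hx
    obtain ⟨ε, hε, hloc⟩ := hP.loc
    have h1 : ∀ᶠ n in atTop, dist (T^[n] x) (T^[n] x') < ε :=
      hx.eventually (gt_mem_nhds hε)
    obtain ⟨n, hn⟩ := eventually_atTop.1 h1
    obtain ⟨i, s, s', u, h2, h3⟩ := hloc (T^[n] x) (T^[n] x') (by
      intro k
      rw [← Function.iterate_add_apply, ← Function.iterate_add_apply]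
      exact hn _ (by omega))
    refine ⟨Nat.pair i n, s, s', u, ?_, ?_⟩
    · simp only [Nat.unpair_pair]
      rw [h2, left_inv]
    · simp only [Nat.unpair_pair]
      rw [h3, left_inv]

end Pool.Agent.Work.MP_adbfe6_an.An

end

section

set_option autoImplicit false

open MeasureTheory Filter Topology Set

namespace Pool.Agent.Work.MP_adbfe6_an.An

open Pool.Agent.Work.MP_adbfe6_an.Ext

/-- holonomies are continuous -/
theorem pr_HCt (h : StHPt) : StHCt := by
  intro X G N W _ _ _ _ _ _ _ _ _ hG T a c hT ha hc hD hL x x' ρ hx hx' hρ hR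
  obtain ⟨K, r, hK, hr0, hr1, hb⟩ := h X G N hG T a c hc hD hL
  choose g hg hd using fun w => hb (x w) (x' w) (ρ w) (hR w)
  refine ⟨g, ?_, hg⟩
  have hρ0 : ∀ w, 0 ≤ ρ w := fun w => (hR w).nonneg
  have hdist : ∀ (n : ℕ) (w : W), dist (actMap N G ((cyc T a n (x w))⁻¹ * cyc T a n (x' w)))
      (actMap N G (g w)⁻¹) ≤ K * ρ w * r ^ n := by
    intro n w
    have h0 := hρ0 w
    rw [ContinuousMap.dist_le (by positivity)]
    intro y
    exact hd w n y
  have hlu : TendstoLocallyUniformly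
      (fun (n : ℕ) (w : W) => actMap N G ((cyc T a n (x w))⁻¹ * cyc T a n (x' w)))
      (fun w : W => actMap N G (g w)⁻¹) atTop := by
    rw [Metric.tendstoLocallyUniformly_iff]
    intro ε hε w
    refine ⟨{v : W | ρ v < ρ w + 1}, ?_, ?_⟩
    · refine IsOpen.mem_nhds (isOpen_lt hρ continuous_const) ?_
      show ρ w < ρ w + 1
      linarith
    · have ht : Tendsto (fun n : ℕ => K * (ρ w + 1) * r ^ n) atTop (𝓝 0) := by
        have h1 := tendsto_pow_atTop_nhds_zero_of_lt_one hr0.le hr1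
        have h2 := h1.const_mul (K * (ρ w + 1))
        simpa using h2
      filter_upwards [ht.eventually (gt_mem_nhds hε)] with n hn
      intro v hv
      rw [dist_comm]
      refine lt_of_le_of_lt (hdist n v) (lt_of_le_of_lt ?_ hn)
      have hv' : ρ v ≤ ρ w + 1 := le_of_lt hv
      gcongr
  have hact : Continuous (actMap N G) := hG.continuous
  have hcont : Continuous (fun w : W => actMap N G (g w)⁻¹) := by
    refine hlu.continuous (Frequently.of_forall fun n => ?_)
    have h1 := cyc_continuous hT ha n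
    exact hact.comp (((h1.comp hx).inv).mul (h1.comp hx'))
  have hinv : Continuous (fun w : W => (g w)⁻¹) := hG.isEmbedding.continuous_iff.mpr hcont
  exact hinv.inv.congr fun w => inv_inv (g w)

end Pool.Agent.Work.MP_adbfe6_an.An

end

section

set_option autoImplicit false
set_option linter.unusedSectionVars false

open MeasureTheory Filter Topology Set

namespace Pool.Agent.Work.MP_adbfe6_an.An

open Pool.Agent.Work.MP_adbfe6_an.Ext

namespace AuxHPt

variable {X G N : Type} [MetricSpace X] [Group G] [MulAction G N] [MetricSpace N]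

/-- domination for the cocycle -/
theorem dom_bound {T : X → X} {a : X → G} {c : X → ℝ} (h0 : ∀ x, 0 < c x)
    (hd : Dominated N T a c) : ∃ C r : ℝ, 0 ≤ C ∧ 0 < r ∧ r < 1 ∧
      ∀ (n : ℕ) (x : X) (y y' : N) (b : ℝ),
        dist (cyc T a n x • y) (cyc T a n x • y') ≤ b * cprod T c n x →
        dist y y' ≤ C * b * r ^ n := by
  obtain ⟨C, r, hr0, hr1, hd⟩ := hd
  refine ⟨|C|, r, abs_nonneg C, hr0, hr1, ?_⟩
  intro n x y y' b hb
  have hpos : 0 < cprod T c n x := cprod_pos h0 n x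
  have h1 := hd n x y y'
  rw [skew_iterate, skew_iterate] at h1
  simp only at h1
  have h2 : C * r ^ n * dist (cyc T a n x • y) (cyc T a n x • y') ≤
      |C| * r ^ n * (b * cprod T c n x) := by
    have h3 : C * r ^ n * dist (cyc T a n x • y) (cyc T a n x • y') ≤
        |C| * r ^ n * dist (cyc T a n x • y) (cyc T a n x • y') := by
      refine mul_le_mul_of_nonneg_right ?_ dist_nonneg
      exact mul_le_mul_of_nonneg_right (le_abs_self C) (by positivity)
    refine h3.trans ?_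
    exact mul_le_mul_of_nonneg_left hb (by positivity)
  have h4 : cprod T c n x * dist y y' ≤ cprod T c n x * (|C| * b * r ^ n) := by
    refine (h1.trans h2).trans (le_of_eq ?_)
    ring
  exact le_of_mul_le_mul_left h4 hpos

theorem step {T : X → X} {a : X → G} {c : X → ℝ} (h0 : ∀ x, 0 < c x)
    (hd : Dominated N T a c) (hL : InvLip N a) :
    ∃ K r : ℝ, 0 ≤ K ∧ 0 < r ∧ r < 1 ∧ ∀ (x x' : X) (C : ℝ), Rt T c x x' C →
      ∀ (n : ℕ) (y : N), dist (((cyc T a n x)⁻¹ * cyc T a n x') • y)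
        (((cyc T a (n + 1) x)⁻¹ * cyc T a (n + 1) x') • y) ≤ K * C * r ^ n := by
  obtain ⟨C₀, r, hC, hr0, hr1, hc⟩ := dom_bound h0 hd
  obtain ⟨K, hK0, hK⟩ := hL
  refine ⟨C₀ * K, r, by positivity, hr0, hr1, ?_⟩
  intro x x' C hR n y
  have h1 := hc n x (((cyc T a n x)⁻¹ * cyc T a n x') • y)
    (((cyc T a (n + 1) x)⁻¹ * cyc T a (n + 1) x') • y) (K * C) ?_
  · refine h1.trans (le_of_eq ?_)
    ring
  · have e1 : cyc T a n x • ((cyc T a n x)⁻¹ * cyc T a n x') • y = cyc T a n x' • y := by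
      rw [mul_smul, smul_inv_smul]
    have e2 : cyc T a n x • ((cyc T a (n + 1) x)⁻¹ * cyc T a (n + 1) x') • y =
        (a (T^[n] x))⁻¹ • a (T^[n] x') • cyc T a n x' • y := by
      rw [cyc, cyc, mul_inv_rev, mul_smul, mul_smul, smul_inv_smul, mul_smul]
    have e3 : dist (cyc T a n x' • y)
        ((a (T^[n] x))⁻¹ • a (T^[n] x') • cyc T a n x' • y) =
        dist ((a (T^[n] x'))⁻¹ • a (T^[n] x') • cyc T a n x' • y)
        ((a (T^[n] x))⁻¹ • a (T^[n] x') • cyc T a n x' • y) := by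
      rw [inv_smul_smul]
    rw [e1, e2, e3]
    refine (hK _ _ _).trans ?_
    rw [dist_comm, mul_assoc]
    exact mul_le_mul_of_nonneg_left (hR n) hK0

end AuxHPt

theorem pr_HPt : StHPt := by
  intro X G N _ _ _ _ _ _ _ _ hG T a c h0 hd hL
  obtain ⟨K, r, hK, hr0, hr1, hs⟩ := AuxHPt.step (N := N) h0 hd hL
  have hr : 0 < 1 - r := by linarith
  refine ⟨K / (1 - r), r, by positivity, hr0, hr1, ?_⟩
  intro x x' C hR
  have hC : 0 ≤ C := hR.nonneg
  have hs' : ∀ n : ℕ, dist (actMap N G ((cyc T a n x)⁻¹ * cyc T a n x'))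
      (actMap N G ((cyc T a (n + 1) x)⁻¹ * cyc T a (n + 1) x')) ≤ K * C * r ^ n := by
    intro n
    rw [ContinuousMap.dist_le (by positivity)]
    intro y
    exact hs x x' C hR n y
  have hc : CauchySeq (fun n => actMap N G ((cyc T a n x)⁻¹ * cyc T a n x')) :=
    cauchySeq_of_le_geometric r (K * C) hr1 hs'
  obtain ⟨F, hF⟩ := cauchySeq_tendsto_of_complete hc
  obtain ⟨g, hg⟩ : F ∈ range (actMap N G) :=
    hG.isClosed_range.mem_of_tendsto hF (Eventually.of_forall fun n => mem_range_self _)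
  subst hg
  have hlim : Tendsto (fun n => (cyc T a n x)⁻¹ * cyc T a n x') atTop (𝓝 g) := by
    rw [hG.isEmbedding.tendsto_nhds_iff]
    exact hF
  refine ⟨g⁻¹, ?_, ?_⟩
  · have h1 := hlim.inv
    unfold Hl
    refine h1.congr fun n => ?_
    rw [mul_inv_rev, inv_inv]
  · intro n y
    rw [inv_inv]
    have h1 := dist_le_of_le_geometric_of_tendsto r (K * C) hr1 hs' hF n
    have h2 : dist (actMap N G ((cyc T a n x)⁻¹ * cyc T a n x') y) (actMap N G g y) ≤
        dist (actMap N G ((cyc T a n x)⁻¹ * cyc T a n x')) (actMap N G g) :=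
      ContinuousMap.dist_apply_le_dist y
    refine (h2.trans h1).trans (le_of_eq ?_)
    ring

end Pool.Agent.Work.MP_adbfe6_an.An

end

section

/-!
# Skew products over systems with a local product structure: item LOf
-/

set_option autoImplicit false

open MeasureTheory Filter Topology Set

namespace Pool.Agent.Work.MP_adbfe6_an.An

open Pool.Agent.Work.MP_adbfe6_an.Ext

theorem pr_LOf (h : StHPt) : StLOf := by
  intro X G N _ _ _ _ _ _ _ _ _ hemb T a c hc h0 h1 hdom hlip x x' C g hrt hhl y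
  obtain ⟨K, r, hK0, hr0, hr1, hH⟩ := h X G N hemb T a c h0 hdom hlip
  have ht2 : T2Space G := hemb.isEmbedding.t2Space
  have hC0 : 0 ≤ C := hrt.nonneg
  have key : ∀ n : ℕ, dist ((skew T a)^[n] (x, y)) ((skew T a)^[n] (x', g • y)) ≤
      (1 + K) * C * cprod T c n x := by
    intro n
    have hp : 0 < cprod T c n x := cprod_pos h0 n x
    have hCp : 0 ≤ C * cprod T c n x := mul_nonneg hC0 hp.le
    have hKp : 0 ≤ K * (C * cprod T c n x) := mul_nonneg hK0 hCp
    rw [skew_iterate, skew_iterate, Prod.dist_eq]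
    refine max_le ?_ ?_
    · have := hrt n
      show dist (T^[n] x) (T^[n] x') ≤ _
      nlinarith
    · show dist (cyc T a n x • y) (cyc T a n x' • g • y) ≤ _
      obtain ⟨gn, hgn, hd⟩ := hH (T^[n] x) (T^[n] x') (C * cprod T c n x) (hrt.iterate n)
      have hg : gn = cyc T a n x' * g * (cyc T a n x)⁻¹ := hgn.unique (hhl.iterate n)
      have h2 := hd 0 (cyc T a n x' • g • y)
      have e1 : ((cyc T a 0 (T^[n] x))⁻¹ * cyc T a 0 (T^[n] x')) • cyc T a n x' • g • y =
          cyc T a n x' • g • y := by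
        simp [cyc]
      have e2 : gn⁻¹ • cyc T a n x' • g • y = cyc T a n x • y := by
        rw [hg, ← mul_smul, ← mul_smul]
        congr 1
        group
      rw [e1, e2, pow_zero, mul_one] at h2
      rw [dist_comm]
      nlinarith
  have hlim := (cprod_tendsto (T := T) hc h0 h1 x).const_mul ((1 + K) * C)
  rw [mul_zero] at hlim
  exact squeeze_zero (fun n => dist_nonneg) key hlim

end Pool.Agent.Work.MP_adbfe6_an.An

end

section

/-!
# Skew products over systems with a local product structure: item LTo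
-/

set_option autoImplicit false

open MeasureTheory Filter Topology Set

namespace Pool.Agent.Work.MP_adbfe6_an.An

open Pool.Agent.Work.MP_adbfe6_an.Ext

theorem pr_LTo (h : StHPt) : StLTo := by
  intro X G N _ _ _ _ _ _ _ _ hemb T a c h0 hdom hlip p p' C hrt hleaf
  obtain ⟨K, r, hK0, hr0, hr1, hH⟩ := h X G N hemb T a c h0 hdom hlip
  obtain ⟨g, hg, hd⟩ := hH p.1 p'.1 C hrt
  obtain ⟨C0, r0, hr00, hr01, hdm⟩ := hdom
  obtain ⟨-, C1, hC1⟩ := hleaf
  refine ⟨g, hg, ?_⟩
  have key : ∀ n : ℕ, dist p.2 (g⁻¹ • p'.2) ≤ |C0| * C1 * r0 ^ n + K * C * r ^ n := by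
    intro n
    have hp : 0 < cprod T c n p.1 := cprod_pos h0 n p.1
    have h1 := hdm n p.1 p.2 (((cyc T a n p.1)⁻¹ * cyc T a n p'.1) • p'.2)
    have h2 := hC1 n
    have h3 := hd n p'.2
    rw [skew_iterate, skew_iterate] at h1 h2
    have e1 : cyc T a n p.1 • ((cyc T a n p.1)⁻¹ * cyc T a n p'.1) • p'.2 =
        cyc T a n p'.1 • p'.2 := by
      rw [mul_smul, smul_inv_smul]
    have h1' : cprod T c n p.1 * dist p.2 (((cyc T a n p.1)⁻¹ * cyc T a n p'.1) • p'.2) ≤
        C0 * r0 ^ n * dist (cyc T a n p.1 • p.2) (cyc T a n p'.1 • p'.2) := by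
      rw [← e1]
      exact h1
    have h2' : dist (cyc T a n p.1 • p.2) (cyc T a n p'.1 • p'.2) ≤ C1 * cprod T c n p.1 := h2
    have h4 : C0 * r0 ^ n * dist (cyc T a n p.1 • p.2) (cyc T a n p'.1 • p'.2) ≤
        |C0| * r0 ^ n * (C1 * cprod T c n p.1) := by
      refine (mul_le_mul_of_nonneg_right (mul_le_mul_of_nonneg_right (le_abs_self C0)
        (by positivity)) dist_nonneg).trans ?_
      exact mul_le_mul_of_nonneg_left h2' (by positivity)
    have h5 : cprod T c n p.1 * dist p.2 (((cyc T a n p.1)⁻¹ * cyc T a n p'.1) • p'.2) ≤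
        cprod T c n p.1 * (|C0| * C1 * r0 ^ n) := by
      refine (h1'.trans h4).trans (le_of_eq ?_)
      ring
    have h6 := le_of_mul_le_mul_left h5 hp
    have h7 := dist_triangle p.2 (((cyc T a n p.1)⁻¹ * cyc T a n p'.1) • p'.2) (g⁻¹ • p'.2)
    linarith
  have hlim : Tendsto (fun n : ℕ => |C0| * C1 * r0 ^ n + K * C * r ^ n) atTop (𝓝 0) := by
    have h1 := (tendsto_pow_atTop_nhds_zero_of_lt_one hr00.le hr01).const_mul (|C0| * C1)
    have h2 := (tendsto_pow_atTop_nhds_zero_of_lt_one hr0.le hr1).const_mul (K * C)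
    have h3 := h1.add h2
    rw [mul_zero, mul_zero, add_zero] at h3
    exact h3
  have h8 : dist p.2 (g⁻¹ • p'.2) ≤ 0 := ge_of_tendsto' hlim key
  have h9 : p.2 = g⁻¹ • p'.2 := dist_le_zero.1 h8
  rw [h9, smul_inv_smul]

end Pool.Agent.Work.MP_adbfe6_an.An

end

section

/-!
# Mix: mixing criterion for functions
-/

set_option autoImplicit false

open MeasureTheory Filter Topology Set
open scoped InnerProductSpace ENNReal

namespace Pool.Agent.Work.MP_adbfe6_an.An

open Pool.Agent.Work.MP_adbfe6_an.Ext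
open Pool.PSTow (cmp)

namespace AuxMix

variable {M : Type} [MetricSpace M] [CompactSpace M] [MeasurableSpace M] [BorelSpace M]
  {μ : Measure M} [IsProbabilityMeasure μ]

theorem iter (f : M → M) (hf : MeasurePreserving f μ μ) (n : ℕ) (F : Lp ℝ 2 μ) :
    (cmp f hf)^[n] F = cmp f^[n] (hf.iterate n) F := by
  induction n with
  | zero => exact (Pool.PSTow.cmp_id F).symm
  | succ n ih =>
    rw [Function.iterate_succ_apply', ih, Pool.PSTow.cmp_cmp]
    exact Pool.PSTow.cmp_congr (Function.iterate_succ f n).symm _ _ F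

theorem UV (f : M ≃ₜ M) (hf : MeasurePreserving f μ μ) (hf' : MeasurePreserving f.symm μ μ)
    (K : Lp ℝ 2 μ) : cmp f hf (cmp f.symm hf' K) = K := by
  rw [Pool.PSTow.cmp_cmp]
  have e : (⇑f.symm ∘ ⇑f) = id := funext fun z => f.symm_apply_apply z
  rw [Pool.PSTow.cmp_congr e _ (MeasurePreserving.id μ), Pool.PSTow.cmp_id]

theorem VU (f : M ≃ₜ M) (hf : MeasurePreserving f μ μ) (hf' : MeasurePreserving f.symm μ μ)
    (K : Lp ℝ 2 μ) : cmp f.symm hf' (cmp f hf K) = K := by
  rw [Pool.PSTow.cmp_cmp]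
  have e : (⇑f ∘ ⇑f.symm) = id := funext fun z => f.apply_symm_apply z
  rw [Pool.PSTow.cmp_congr e _ (MeasurePreserving.id μ), Pool.PSTow.cmp_id]

/-- the elements orthogonal to the vectors with decaying correlations are in closed subspaces -/
theorem orth_le {H : Type*} [NormedAddCommGroup H] [InnerProductSpace ℝ H] [CompleteSpace H]
    {D C : Submodule ℝ H} (hC : IsClosed (C : Set H)) (h : Cᗮ ≤ D) : Dᗮ ≤ C := by
  have : CompleteSpace C := hC.completeSpace_coe
  have h1 := Submodule.orthogonal_le h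
  rwa [Submodule.orthogonal_orthogonal] at h1

end AuxMix

open AuxMix in
theorem pr_Mix (h1 : StSub) (h2 : StOrth) : StMix := by
  intro M _ _ _ _ μ _ f hf hinv S T hS hT
  have hf' := Pool.PSTow.homeo_symm_mp f hf
  obtain ⟨Cs, hCs, hCs'⟩ := h1 M μ f
  obtain ⟨Cu, hCu, hCu'⟩ := h1 M μ f.symm
  have hD : PSG.Dec (cmp f hf) = PSG.Dec (cmp f.symm hf') :=
    le_antisymm (PSG.Dec_le (UV f hf hf')) (PSG.Dec_le (VU f hf hf'))
  have hs : (PSG.Dec (cmp f hf))ᗮ ≤ Cs :=
    orth_le hCs (h2 M μ f hf Cs fun F hF => (hCs' F).2 hF)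
  have hu : (PSG.Dec (cmp f hf))ᗮ ≤ Cu := by
    rw [hD]
    exact orth_le hCu (h2 M μ f.symm hf' Cu fun F hF => (hCu' F).2 hF)
  -- constants
  set e : Lp ℝ 2 μ := Lp.const 2 μ (1 : ℝ) with he
  have hcoe : ⇑e =ᵐ[μ] fun _ => (1 : ℝ) := Lp.coeFn_const 2 μ 1
  have hce : ∀ (g : M → M) (hg : MeasurePreserving g μ μ), cmp g hg e = e := by
    intro g hg
    refine Lp.ext ((Pool.PSTow.cmp_coe g hg e).trans ?_)
    have h1 := hg.quasiMeasurePreserving.ae hcoe
    filter_upwards [h1, hcoe] with z h2 h3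
    rw [h2, h3]
  have hUe : ∀ n, (cmp f hf)^[n] e = e := by
    intro n
    rw [iter]
    exact hce _ _
  obtain ⟨K₁, hK₁, K₂, hK₂, hdec⟩ := PSG.exists_decomp (cmp f hf)
    (indicatorConstLp 2 hT (measure_ne_top μ T) (1 : ℝ))
  obtain ⟨c, hc⟩ := hinv K₂ ((hCs' K₂).1 (hs hK₂)) ((hCu' K₂).1 (hu hK₂))
  have hK₂e : K₂ = c • e := by
    refine Lp.ext ?_
    have h1 := Lp.coeFn_smul c e
    filter_upwards [hc, h1, hcoe] with z h2 h3 h4
    rw [h2, h3]
    simp [h4]
  have hee : ⟪e, e⟫_ℝ = 1 := by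
    rw [real_inner_self_eq_norm_sq, he]
    have h1 := Lp.norm_const (p := 2) (μ := μ) (c := (1 : ℝ)) (by simp)
    rw [h1]
    simp
  have hK₁e : ⟪K₁, e⟫_ℝ = 0 := by
    have h3 := hK₁ e
    simp only [hUe] at h3
    exact tendsto_nhds_unique tendsto_const_nhds h3
  have hTe : ⟪(indicatorConstLp 2 hT (measure_ne_top μ T) (1 : ℝ)), e⟫_ℝ = μ.real T := by
    rw [L2.inner_indicatorConstLp_one, integral_congr_ae (ae_restrict_of_ae hcoe)]
    simp
  have hSe : ⟪e, (indicatorConstLp 2 hS (measure_ne_top μ S) (1 : ℝ))⟫_ℝ = μ.real S := by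
    rw [real_inner_comm, L2.inner_indicatorConstLp_one, integral_congr_ae (ae_restrict_of_ae hcoe)]
    simp
  have hcT : c = μ.real T := by
    rw [← hTe, hdec, inner_add_left, hK₁e, hK₂e, real_inner_smul_left, hee]
    ring
  have hcorr : ∀ n, ⟪(indicatorConstLp 2 hT (measure_ne_top μ T) (1 : ℝ)),
      (cmp f hf)^[n] (indicatorConstLp 2 hS (measure_ne_top μ S) (1 : ℝ))⟫_ℝ =
        μ.real (f^[n] ⁻¹' S ∩ T) := by
    intro n
    rw [iter, L2.inner_indicatorConstLp_one]
    have h3 := Pool.PSTow.cmp_coe f^[n] (hf.iterate n)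
      (indicatorConstLp 2 hS (measure_ne_top μ S) (1 : ℝ))
    have h4 := (hf.iterate n).quasiMeasurePreserving.ae
      (indicatorConstLp_coeFn (p := 2) (hs := hS) (hμs := measure_ne_top μ S) (c := (1 : ℝ)))
    have h5 : ∀ᵐ z ∂(μ.restrict T),
        (cmp f^[n] (hf.iterate n) (indicatorConstLp 2 hS (measure_ne_top μ S) (1 : ℝ))) z =
        (f^[n] ⁻¹' S).indicator (fun _ => (1 : ℝ)) z := by
      refine ae_restrict_of_ae ?_
      filter_upwards [h3, h4] with z h6 h7
      rw [h6, h7]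
      rfl
    rw [integral_congr_ae h5, integral_indicator ((hf.iterate n).measurable hS)]
    simp [Measure.restrict_restrict ((hf.iterate n).measurable hS), Measure.real]
  have hlim : Tendsto (fun n : ℕ => μ.real (f^[n] ⁻¹' S ∩ T)) atTop
      (𝓝 (μ.real S * μ.real T)) := by
    have h3 := (hK₁ (indicatorConstLp 2 hS (measure_ne_top μ S) (1 : ℝ))).add_const
      (μ.real S * μ.real T)
    rw [zero_add] at h3
    refine h3.congr fun n => ?_
    rw [← hcorr n, hdec, inner_add_left, hK₂e, real_inner_smul_left]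
    congr 1
    have h4 : ⟪e, (cmp f hf)^[n] (indicatorConstLp 2 hS (measure_ne_top μ S) (1 : ℝ))⟫_ℝ =
        μ.real S := by
      have h6 := PSG.inner_iterate (cmp f hf) n e
        (indicatorConstLp 2 hS (measure_ne_top μ S) (1 : ℝ))
      rw [hUe] at h6
      rw [h6, hSe]
    rw [h4, hcT]
    ring
  have h5 : μ S * μ T ≠ ∞ := ENNReal.mul_ne_top (measure_ne_top μ S) (measure_ne_top μ T)
  refine (ENNReal.tendsto_toReal_iff (fun n => measure_ne_top μ _) h5).1 ?_
  rw [ENNReal.toReal_mul]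
  exact hlim

end Pool.Agent.Work.MP_adbfe6_an.An

end

section

/-!
# MP_adbfe6_an, block An: functions orthogonal to the invariant functions have decaying
correlations
-/

set_option autoImplicit false

open MeasureTheory Filter Topology Set

namespace Pool.Agent.Work.MP_adbfe6_an.An

open Pool.Agent.Work.MP_adbfe6_an.Ext
open Pool.PSTow (cmp)

theorem pr_Orth (h : StCInv) : StOrth := by
  intro M _ _ _ _ μ _ f hf C hC F hF
  refine mem_Dec_of (range (ContinuousMap.toLp 2 μ ℝ : C(M, ℝ) →L[ℝ] Lp ℝ 2 μ))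
    (ContinuousMap.toLp_denseRange ℝ μ ℝ (by norm_num)) ?_ ?_
  · rintro _ ⟨K, rfl⟩
    exact ⟨-K, map_neg _ _⟩
  · rintro _ ⟨K, rfl⟩ d c hd hlim
    have h1 : c ∈ C := hC c (h M μ f hf K d c hd hlim)
    exact Submodule.inner_left_of_mem_orthogonal h1 hF

end Pool.Agent.Work.MP_adbfe6_an.An

end

section

/-!
# Item Spr: the saturated version of `S`
-/

set_option autoImplicit false

open MeasureTheory Filter Topology Set
open scoped symmDiff

namespace Pool.Agent.Work.MP_adbfe6_an.An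

open Pool.Agent.Work.MP_adbfe6_an.Ext

namespace AuxSpr

/-- the stabiliser of the slice of `S` over `x0` -/
def stb {X G N : Type} [Group G] [MulAction G N] [MeasurableSpace N] {ν : Measure N}
    (hm : ∀ g : G, MeasurePreserving (fun y : N => g • y) ν ν) (S : Set (X × N)) (x0 : X) :
    Subgroup G where
  carrier := {g : G | Rel ν S x0 x0 g}
  mul_mem' := fun {_ _} ha hb => rel_mul hm hb ha
  one_mem' := rel_one x0
  inv_mem' := fun {_} ha => rel_inv hm ha

end AuxSpr

open AuxSpr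

theorem pr_Spr : StSpr := by
  classical
  intro X G N P Q _ _ _ _ _ _ _ _ _ _ _ _ _ _ _ _ _ _ _ _ _ _ m _ ν _ hm p _ q _ b hB S hS x κ
    hκ hrel Lk hLk1 hLk hij
  let mG : MeasurableSpace G := borel G
  have bG : BorelSpace G := ⟨rfl⟩
  choose g hg using hij 0
  have hBm : MeasurableSet {y : N | (x 0, y) ∈ S} := measurable_prodMk_left hS
  obtain ⟨B', hB'm, hB'ae, hB'inv⟩ := strict_version (stb hm S (x 0))
    (rel_closed hm hS (x 0) (x 0)) hBm (fun g hg => hg)
  -- the consistency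
  have hcons : ∀ (i j : ℕ) (z z' : P × Q) (h : G), Lk (b i z) (b j z') h → ∀ y : N,
      ((κ j z' * g j)⁻¹ • (h • y) ∈ B' ↔ (κ i z * g i)⁻¹ • y ∈ B') := by
    intro i j z z' h hl y
    have h1 : (g j)⁻¹ * (((κ j z')⁻¹ * h * κ i z) * g i) ∈ stb hm S (x 0) :=
      rel_mul hm (rel_mul hm (hg i) (hLk i j z z' h hl)) (rel_inv hm (hg j))
    have h2 := hB'inv _ h1 ((κ i z * g i)⁻¹ • y)
    rw [← h2, ← mul_smul, ← mul_smul]
    have h3 : (g j)⁻¹ * (((κ j z')⁻¹ * h * κ i z) * g i) * (κ i z * g i)⁻¹ =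
        (κ j z' * g j)⁻¹ * h := by group
    rw [h3]
  obtain ⟨S', hS'⟩ : ∃ S' : Set (X × N), S' = {w : X × N | ∃ (i : ℕ) (z : P × Q), b i z = w.1 ∧
      (κ i z * g i)⁻¹ • w.2 ∈ B'} := ⟨_, rfl⟩
  have hmem : ∀ (i : ℕ) (z : P × Q) (y : N), ((b i z, y) ∈ S' ↔ (κ i z * g i)⁻¹ • y ∈ B') := by
    intro i z y
    rw [hS']
    constructor
    · rintro ⟨j, z', hz', hy⟩
      have hz'' : b j z' = b i z := hz'
      have h1 : Lk (b j z') (b i z) 1 := by
        rw [hz'']
        exact hLk1 _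
      have h2 := hcons j i z' z 1 h1 y
      rw [one_smul] at h2
      exact h2.2 hy
    · intro hy
      exact ⟨i, z, rfl, hy⟩
  have hS'm : MeasurableSet S' := by
    have h1 : S' = ⋃ i, (Prod.map (b i) (id : N → N)) ''
        {w : (P × Q) × N | (κ i w.1 * g i)⁻¹ • w.2 ∈ B'} := by
      ext w
      rw [mem_iUnion, hS']
      constructor
      · rintro ⟨i, z, hz, hy⟩
        exact ⟨i, (z, w.2), hy, Prod.ext hz rfl⟩
      · rintro ⟨i, w', hw', rfl⟩
        exact ⟨i, w'.1, rfl, hw'⟩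
    rw [h1]
    refine MeasurableSet.iUnion fun i => ?_
    have h2 : MeasurableEmbedding (Prod.map (b i) (id : N → N)) :=
      (hB.emb i).measurableEmbedding.prodMap MeasurableEmbedding.id
    refine h2.measurableSet_image' ?_
    have h3 : Continuous (fun w : (P × Q) × N => (κ i w.1 * g i)⁻¹ • w.2) :=
      ((((hκ i).comp continuous_fst).mul continuous_const).inv).smul continuous_snd
    exact h3.measurable hB'm
  refine ⟨S', hS'm, ?_, ?_⟩
  · -- equality mod null sets
    have hdm : MeasurableSet (S' ∆ S) := hS'm.symmDiff hS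
    have hfun := measurable_measure_prodMk_left (ν := ν) hdm
    have hEm : MeasurableSet {x : X | ν (Prod.mk x ⁻¹' (S' ∆ S)) ≠ 0} :=
      (hfun (measurableSet_singleton 0)).compl
    have hE0 : m {x : X | ν (Prod.mk x ⁻¹' (S' ∆ S)) ≠ 0} = 0 := by
      set E : Set X := {x : X | ν (Prod.mk x ⁻¹' (S' ∆ S)) ≠ 0} with hE
      have hcov : E ⊆ ⋃ i, E ∩ range (b i) := by
        intro x hx
        obtain ⟨i, z, hz⟩ := hB.cover x
        exact mem_iUnion.2 ⟨i, hx, z, hz⟩
      refine measure_mono_null hcov (measure_iUnion_null fun i => ?_)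
      rw [← hB.null i E hEm, measure_eq_zero_iff_ae_notMem]
      filter_upwards [hrel i] with z hz hzE
      apply hzE
      have h6 := rel_inv hm (rel_mul hm (hg i) hz)
      have h7 : (fun y : N => (κ i z * g i)⁻¹ • y) ⁻¹' B' =ᵐ[ν]
          (fun y : N => (κ i z * g i)⁻¹ • y) ⁻¹' {y : N | (x 0, y) ∈ S} :=
        (hm _).quasiMeasurePreserving.preimage_ae_eq hB'ae
      have h8 := h7.trans h6
      have h9 := measure_symmDiff_eq_zero_iff.mpr h8
      have h10 : Prod.mk (b i z) ⁻¹' (S' ∆ S) =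
          ((fun y : N => (κ i z * g i)⁻¹ • y) ⁻¹' B') ∆ {y : N | (b i z, y) ∈ S} := by
        rw [preimage_symmDiff]
        congr 1
        ext y
        rw [mem_preimage, hmem i z y]
        rfl
      rw [h10]
      exact h9
    rw [← measure_symmDiff_eq_zero_iff, Measure.measure_prod_null hdm]
    have : ∀ᵐ x : X ∂m, x ∉ {x : X | ν (Prod.mk x ⁻¹' (S' ∆ S)) ≠ 0} :=
      measure_eq_zero_iff_ae_notMem.mp hE0
    filter_upwards [this] with x hx
    exact not_not.mp hx
  · intro x₁ x₂ h hl y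
    obtain ⟨i, z, rfl⟩ := hB.cover x₁
    obtain ⟨j, z', rfl⟩ := hB.cover x₂
    rw [hmem, hmem]
    exact hcons i j z z' h hl y

end Pool.Agent.Work.MP_adbfe6_an.An

end

section

/-!
# The functions which are constant on asymptotic pairs are a closed subspace
-/

set_option autoImplicit false

open MeasureTheory Filter Topology Set

namespace Pool.Agent.Work.MP_adbfe6_an.An

namespace AuxSub

variable {M : Type} [MetricSpace M] [MeasurableSpace M] {μ : Measure M} {f : M → M}

/-- limits almost everywhere -/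
theorem lim {F : ℕ → M → ℝ} {G : M → ℝ} (hF : ∀ n, InvF f μ (F n))
    (hG : ∀ᵐ z ∂μ, Tendsto (fun n => F n z) atTop (𝓝 (G z))) : InvF f μ G := by
  choose R hR hR' using hF
  refine ⟨(⋂ n, R n) ∩ {z | Tendsto (fun n => F n z) atTop (𝓝 (G z))}, ?_, ?_⟩
  · filter_upwards [ae_all_iff.mpr hR, hG] with z hz hz'
    exact ⟨mem_iInter.mpr hz, hz'⟩
  · intro x hx y hy hxy
    have h1 : (fun n => F n x) = fun n => F n y :=
      funext fun n => hR' n x (mem_iInter.mp hx.1 n) y (mem_iInter.mp hy.1 n) hxy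
    have h2 : Tendsto (fun n => F n x) atTop (𝓝 (G x)) := hx.2
    have h3 : Tendsto (fun n => F n y) atTop (𝓝 (G y)) := hy.2
    rw [h1] at h2
    exact tendsto_nhds_unique h2 h3

theorem congr {F G : M → ℝ} (hF : InvF f μ F) (h : G =ᵐ[μ] F) : InvF f μ G := by
  obtain ⟨R, hR, hR'⟩ := hF
  refine ⟨R ∩ {z | G z = F z}, ?_, ?_⟩
  · filter_upwards [hR, h] with z hz hz'
    exact ⟨hz, hz'⟩
  · intro x hx y hy hxy
    have h1 : G x = F x := hx.2
    have h2 : G y = F y := hy.2
    rw [h1, h2]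
    exact hR' x hx.1 y hy.1 hxy

theorem add {F G : M → ℝ} (hF : InvF f μ F) (hG : InvF f μ G) :
    InvF f μ (fun z => F z + G z) := by
  obtain ⟨R, hR, hR'⟩ := hF
  obtain ⟨S, hS, hS'⟩ := hG
  refine ⟨R ∩ S, ?_, ?_⟩
  · filter_upwards [hR, hS] with z hz hz'
    exact ⟨hz, hz'⟩
  · intro x hx y hy hxy
    show F x + G x = F y + G y
    rw [hR' x hx.1 y hy.1 hxy, hS' x hx.2 y hy.2 hxy]

theorem smul {F : M → ℝ} (hF : InvF f μ F) (c : ℝ) : InvF f μ (fun z => c * F z) := by
  obtain ⟨R, hR, hR'⟩ := hF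
  refine ⟨R, hR, ?_⟩
  intro x hx y hy hxy
  show c * F x = c * F y
  rw [hR' x hx y hy hxy]

end AuxSub

open AuxSub in
/-- [Sub] these functions are a closed subspace -/
theorem pr_Sub : StSub := by
  intro M _ _ μ _ f
  refine ⟨{ carrier := {F | InvF f μ F}
            add_mem' := ?_
            zero_mem' := ?_
            smul_mem' := ?_ }, ?_, fun F => Iff.rfl⟩
  · intro F G hF hG
    exact congr (add hF hG) (Lp.coeFn_add F G)
  · refine congr (F := fun _ => 0) ⟨univ, Eventually.of_forall fun _ => mem_univ _,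
      fun _ _ _ _ _ => rfl⟩ ?_
    exact Lp.coeFn_zero ℝ 2 μ
  · intro c F hF
    exact congr (smul hF c) (Lp.coeFn_smul c F)
  · refine IsSeqClosed.isClosed ?_
    intro F G hF hG
    have h1 : TendstoInMeasure μ (fun n => (F n : M → ℝ)) atTop G :=
      tendstoInMeasure_of_tendsto_Lp hG
    obtain ⟨ns, -, h2⟩ := h1.exists_seq_tendsto_ae
    exact lim (F := fun n => F (ns n)) (fun n => hF (ns n)) h2

end Pool.Agent.Work.MP_adbfe6_an.An

end

section

/-! Item [X0]: the good points of the base. -/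

set_option autoImplicit false

open MeasureTheory Filter Topology Set

namespace Pool.Agent.Work.MP_adbfe6_an.An

open Pool.Agent.Work.MP_adbfe6_an.Ext

theorem pr_X0 : StX0 := by
  intro X G N _ _ _ _ _ _ _ _ _ m _ ν _ hν S R A hR hS
  have h1 : ∀ᵐ x ∂m, ∀ᵐ y ∂ν, (x, y) ∈ R := Measure.ae_ae_of_ae_prod hR
  refine ⟨(toMeasurable m {x | ¬ ∀ᵐ y ∂ν, (x, y) ∈ R})ᶜ, (measurableSet_toMeasurable _ _).compl,
    ?_, ?_⟩
  · rw [compl_compl, measure_toMeasurable]
    exact ae_iff.1 h1
  · intro x hx x' hx' g hg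
    have hx1 : ∀ᵐ y ∂ν, (x, y) ∈ R := by
      by_contra hcon
      exact hx (subset_toMeasurable _ _ hcon)
    have hx2 : ∀ᵐ y ∂ν, (x', y) ∈ R := by
      by_contra hcon
      exact hx' (subset_toMeasurable _ _ hcon)
    have hx3 : ∀ᵐ y ∂ν, (x', g • y) ∈ R := (hν g).quasiMeasurePreserving.ae hx2
    unfold Ext.Rel
    rw [eventuallyEq_set]
    filter_upwards [hx1, hx3] with y h2 h3
    exact (hS _ h2 _ h3 (hg y)).symm

end Pool.Agent.Work.MP_adbfe6_an.An

end

section

/-!
# Skew products over systems with a local product structure: assembly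
-/

set_option autoImplicit false

open MeasureTheory Filter Topology Set

namespace Pool.Agent.Work.MP_adbfe6_an.An

open Pool.Agent.Work.MP_adbfe6_an.Ext

/-- the skew product as a homeomorphism -/
def skewHm {X G N : Type} [TopologicalSpace X] [Group G] [TopologicalSpace G] [MulAction G N]
    [TopologicalSpace N] [ContinuousSMul G N] (T : X ≃ₜ X) (a : X → G) (ha : Continuous a)
    (hb : Continuous (ainv T.symm a)) : (X × N) ≃ₜ (X × N) where
  toFun := skew T a
  invFun := skew T.symm (ainv T.symm a)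
  left_inv := by
    intro p
    refine Prod.ext ?_ ?_
    · exact T.symm_apply_apply p.1
    · show (a (T.symm (T p.1)))⁻¹ • a p.1 • p.2 = p.2
      rw [T.symm_apply_apply, inv_smul_smul]
  right_inv := by
    intro p
    refine Prod.ext ?_ ?_
    · exact T.apply_symm_apply p.1
    · show a (T.symm p.1) • (a (T.symm p.1))⁻¹ • p.2 = p.2
      rw [smul_inv_smul]
  continuous_toFun := (T.continuous.comp continuous_fst).prodMk
    ((ha.comp continuous_fst).smul continuous_snd)
  continuous_invFun := (T.symm.continuous.comp continuous_fst).prodMk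
    ((hb.comp continuous_fst).smul continuous_snd)

section side

variable {X P Q G N : Type} [MetricSpace X] [CompactSpace X] [MeasurableSpace X]
  [BorelSpace X] [TopologicalSpace P] [MeasurableSpace P] [TopologicalSpace Q]
  [MeasurableSpace Q] [Group G] [TopologicalSpace G] [IsTopologicalGroup G] [MulAction G N]
  [MetricSpace N] [CompactSpace N] [ContinuousSMul G N]

/-- what is known about one direction: a family of plaques with continuous holonomies -/
structure SideD (N : Type) [MetricSpace N] [MulAction G N] (T : X → X) (a : X → G) (c : X → ℝ)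
    (m : Measure X) (p : Measure P) (q : Measure Q) (β : ℕ → P × Q → X)
    (h : ℕ → P × P × Q → G) : Prop where
  fam : Fam T c m p q β
  cont : ∀ l, Continuous (h l)
  hl : ∀ l s s' u, Hl T a (β l (s, u)) (β l (s', u)) (h l (s, s', u))
  asym : ∀ l s s' u (y : N), Asym (skew T a) (β l (s, u), y) (β l (s', u), h l (s, s', u) • y)
  leaf : ∀ z z' : X × N, Leaf T a c z z' → ∃ g : G, (∃ C, Rt T c z.1 z'.1 C) ∧
    Hl T a z.1 z'.1 g ∧ z'.2 = g • z.2

theorem exists_sideD (hF : StFam) (hC : StHCt) (hO : StLOf) (hL : StLTo)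
    (hG : IsClosedEmbedding (actMap N G)) {m : Measure X} {p : Measure P} {q : Measure Q}
    {b : ℕ → P × Q → X} {T : X ≃ₜ X} {a : X → G} {c : X → ℝ} (hT : MeasurePreserving T m m)
    (hb : Boxes m p q b) (hp : Plaques T c b) (ha : Continuous a) (hD : Dominated N T a c)
    (hI : InvLip N a) : ∃ β h, SideD N T a c m p q β h := by
  obtain ⟨β, hβ⟩ := hF X P Q m p q b T c hT hb hp
  have hex : ∀ l, ∃ h : P × P × Q → G, Continuous h ∧
      ∀ w : P × P × Q, Hl T a (β l (w.1, w.2.2)) (β l (w.2.1, w.2.2)) (h w) := by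
    intro l
    obtain ⟨ρ, hρ, hr⟩ := hβ.rate l
    exact hC X G N (P × P × Q) hG T a c T.continuous ha hp.pos hD hI
      (fun w => β l (w.1, w.2.2)) (fun w => β l (w.2.1, w.2.2)) ρ
      ((hβ.cont l).comp (continuous_fst.prodMk (continuous_snd.comp continuous_snd)))
      ((hβ.cont l).comp ((continuous_fst.comp continuous_snd).prodMk
        (continuous_snd.comp continuous_snd))) hρ (fun w => hr w.1 w.2.1 w.2.2)
  choose h hc hh using hex
  refine ⟨β, h, hβ, hc, fun l s s' u => hh l (s, s', u), fun l s s' u y => ?_, fun z z' hz => ?_⟩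
  · obtain ⟨ρ, -, hr⟩ := hβ.rate l
    exact hO X G N hG T a c hp.cont hp.pos hp.lt hD hI _ _ _ _ (hr s s' u) (hh l (s, s', u)) y
  · obtain ⟨l, s, s', u, e1, e2⟩ := hβ.all z.1 z'.1 hz.1
    obtain ⟨ρ, -, hr⟩ := hβ.rate l
    have h1 := hr s s' u
    rw [e1, e2] at h1
    obtain ⟨g, hg1, hg2⟩ := hL X G N hG T a c hp.pos hD hI z z' _ h1 hz
    exact ⟨g, ⟨_, h1⟩, hg1, hg2⟩

end side

theorem main_of (hFam : StFam) (hHCt : StHCt) (hLOf : StLOf) (hLTo : StLTo) (hX0 : StX0)
    (hCht : StCht) (hCons : StCons) (hConn : StConn) (hSpr : StSpr) (hCrit : StCrit)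
    (hErg : StErg) : StMain := by
  intro X P Q G N _ _ _ _ _ _ _ _ _ _ _ _ _ _ _ _ _ _ _ _ _ _ m _ p _ _ q _ _ ν _ b T cs cu a
    hB hF hPH hE
  have t2 : T2Space G := hF.emb.isEmbedding.t2Space
  have scG : SecondCountableTopology G := hF.emb.isEmbedding.secondCountableTopology
  have hm := hF.act_mp
  obtain ⟨K, hK⟩ := hPH.lip
  obtain ⟨K', hK'⟩ := hPH.lip'
  have hac : Continuous a := cocycle_continuous hF.emb hK
  have hbc : Continuous (ainv T.symm a) := cocycle_continuous hF.emb hK'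
  have hTm' : MeasurePreserving T.symm m m := hB.mp.symm T.toMeasurableEquiv
  obtain ⟨βs, hs, hS⟩ := exists_sideD hFam hHCt hLOf hLTo hF.emb hB.mp hB.boxes hB.s hac hPH.s
    (invLip_s (T := T.toEquiv) hK hK')
  obtain ⟨βu, hu, hU⟩ := exists_sideD hFam hHCt hLOf hLTo hF.emb hTm' hB.boxes.swap hB.u hbc hPH.u
    (invLip_u (T := T.toEquiv) hK hK')
  have hneX : Nonempty X := by
    by_contra hcon
    rw [not_nonempty_iff] at hcon
    have h1 : m univ = 1 := measure_univ
    rw [univ_eq_empty_iff.mpr hcon, measure_empty] at h1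
    exact zero_ne_one h1
  obtain ⟨x00⟩ := hneX
  obtain ⟨i00, z00, -⟩ := hB.boxes.cover x00
  have neP : Nonempty P := ⟨z00.1⟩
  have neQ : Nonempty Q := ⟨z00.2⟩
  have nzp : NeZero p := inferInstance
  have nzq : NeZero q := inferInstance
  -- the homeomorphism
  have hfm : MeasurePreserving (skewHm (N := N) T a hac hbc) (m.prod ν) (m.prod ν) :=
    skew_mp hm hB.mp hac
  have key : Mixing (skewHm (N := N) T a hac hbc) (m.prod ν) := by
    refine hCrit (X × N) (m.prod ν) (skewHm (N := N) T a hac hbc) hfm ?_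
    rintro S hSm ⟨R, hR, hRS⟩
    obtain ⟨X0, hX0m, hX0n, hX0r⟩ := hX0 X G N m ν hm S R
      (fun z z' => Asym (skew T a) z z' ∨ Asym (skew T.symm (ainv T.symm a)) z z') hR hRS
    -- relations along the plaques
    have rs : ∀ l s s' u, βs l (s, u) ∈ X0 → βs l (s', u) ∈ X0 →
        Rel ν S (βs l (s, u)) (βs l (s', u)) (hs l (s, s', u)) := fun l s s' u h1 h2 =>
      hX0r _ h1 _ h2 _ fun y => Or.inl (hS.asym l s s' u y)
    have ru : ∀ l s s' u, βu l (s, u) ∈ X0 → βu l (s', u) ∈ X0 →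
        Rel ν S (βu l (s, u)) (βu l (s', u)) (hu l (s, s', u)) := fun l s s' u h1 h2 =>
      hX0r _ h1 _ h2 _ fun y => Or.inr (hU.asym l s s' u y)
    have hX0b : ∀ i, ∀ᵐ z ∂(p.prod q), b i z ∈ X0 := by
      intro i
      rw [ae_iff]
      refine (hB.boxes.null i X0ᶜ hX0m.compl).mpr ?_
      exact measure_mono_null inter_subset_left hX0n
    -- holonomies in the boxes
    have hexs : ∀ i, ∃ h : P × P × Q → G, Continuous h ∧ ∀ s s' u, b i (s, u) ∈ X0 →
        b i (s', u) ∈ X0 → Rel ν S (b i (s, u)) (b i (s', u)) (h (s, s', u)) := by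
      intro i
      obtain ⟨ρ, hρ, hr⟩ := hB.s.rate i
      have cb := (hB.boxes.emb i).continuous
      obtain ⟨h, hc, hh⟩ := hHCt X G N (P × P × Q) hF.emb T a cs T.continuous hac hB.s.pos hPH.s
        (invLip_s (T := T.toEquiv) hK hK')
        (fun w => b i (w.1, w.2.2)) (fun w => b i (w.2.1, w.2.2)) ρ
        (cb.comp (continuous_fst.prodMk (continuous_snd.comp continuous_snd)))
        (cb.comp ((continuous_fst.comp continuous_snd).prodMk
          (continuous_snd.comp continuous_snd))) hρ (fun w n => hr w.1 w.2.1 w.2.2 n)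
      refine ⟨h, hc, fun s s' u h1 h2 => hX0r _ h1 _ h2 _ fun y => Or.inl ?_⟩
      exact hLOf X G N hF.emb T a cs hB.s.cont hB.s.pos hB.s.lt hPH.s
        (invLip_s (T := T.toEquiv) hK hK') _ _ _ _ (fun n => hr s s' u n) (hh (s, s', u)) y
    have hexu : ∀ i, ∃ h : Q × Q × P → G, Continuous h ∧ ∀ u u' s, b i (s, u) ∈ X0 →
        b i (s, u') ∈ X0 → Rel ν S (b i (s, u)) (b i (s, u')) (h (u, u', s)) := by
      intro i
      obtain ⟨ρ, hρ, hr⟩ := hB.u.rate i
      have cb : Continuous (fun z : Q × P => b i z.swap) := (hB.boxes.swap.emb i).continuous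
      obtain ⟨h, hc, hh⟩ := hHCt X G N (Q × Q × P) hF.emb T.symm (ainv T.symm a) cu
        T.symm.continuous hbc hB.u.pos hPH.u (invLip_u (T := T.toEquiv) hK hK')
        (fun w => b i (w.2.2, w.1)) (fun w => b i (w.2.2, w.2.1)) ρ
        (cb.comp (continuous_fst.prodMk (continuous_snd.comp continuous_snd)))
        (cb.comp ((continuous_fst.comp continuous_snd).prodMk
          (continuous_snd.comp continuous_snd))) hρ (fun w n => hr w.1 w.2.1 w.2.2 n)
      refine ⟨h, hc, fun u u' s h1 h2 => hX0r _ h1 _ h2 _ fun y => Or.inr ?_⟩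
      exact hLOf X G N hF.emb T.symm (ainv T.symm a) cu hB.u.cont hB.u.pos hB.u.lt hPH.u
        (invLip_u (T := T.toEquiv) hK hK') _ _ _ _ (fun n => hr u u' s n) (hh (u, u', s)) y
    choose h1 h1c h1r using hexs
    choose h2 h2c h2r using hexu
    choose xi κ hκc hκr using fun i => hCht X G N P Q ν hm p q S (b i) X0 (hX0b i) (h1 i) (h2 i)
      (h1c i) (h2c i) (h1r i) (h2r i)
    -- links
    let Lk : X → X → G → Prop := fun x x' g => ((∃ C, Rt T cs x x' C) ∧ Hl T a x x' g) ∨
      ((∃ C, Rt T.symm cu x x' C) ∧ Hl T.symm (ainv T.symm a) x x' g)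
    have hLk1 : ∀ x, Lk x x 1 := fun x => Or.inl ⟨⟨0, Rt.refl x⟩, Hl.refl x⟩
    have hLk2 : ∀ i j z z' g, Lk (b i z) (b j z') g →
        Rel ν S (xi i) (xi j) ((κ j z')⁻¹ * g * κ i z) := by
      intro i j z z' g hg
      rcases hg with ⟨⟨C, hC⟩, hg⟩ | ⟨⟨C, hC⟩, hg⟩
      · obtain ⟨l, s, s', u, e1, e2⟩ := hS.fam.all _ _
          (hC.asym hB.s.cont hB.s.pos hB.s.lt)
        have e3 := hS.hl l s s' u
        rw [e1, e2] at e3
        rw [hg.unique e3]
        exact hCons X G N (P × Q) P Q ν hm m (p.prod q) p q S hSm X0 hX0m hX0n (b i) (b j)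
          (hB.boxes.emb i) (hB.boxes.emb j) (hB.boxes.null i) (hB.boxes.null j) (xi i) (xi j)
          (κ i) (κ j) (hκc i) (hκc j) (hκr i) (hκr j) (βs l) (hS.fam.cont l) (hS.fam.null l)
          (hs l) (hS.cont l) (rs l) s s' u z z' e1 e2
      · obtain ⟨l, s, s', u, e1, e2⟩ := hU.fam.all _ _
          (hC.asym hB.u.cont hB.u.pos hB.u.lt)
        have e3 := hU.hl l s s' u
        rw [e1, e2] at e3
        rw [hg.unique e3]
        exact hCons X G N (P × Q) Q P ν hm m (p.prod q) q p S hSm X0 hX0m hX0n (b i) (b j)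
          (hB.boxes.emb i) (hB.boxes.emb j) (hB.boxes.null i) (hB.boxes.null j) (xi i) (xi j)
          (κ i) (κ j) (hκc i) (hκc j) (hκr i) (hκr j) (βu l) (hU.fam.cont l) (hU.fam.null l)
          (hu l) (hU.cont l) (ru l) s s' u z z' e1 e2
    have hleaf : ∀ z z' : X × N, (Leaf T a cs z z' ∨ Leaf T.symm (ainv T.symm a) cu z z') →
        ∃ g, Lk z.1 z'.1 g ∧ z'.2 = g • z.2 := by
      rintro z z' (hz | hz)
      · obtain ⟨g, k1, k2, k3⟩ := hS.leaf z z' hz
        exact ⟨g, Or.inl ⟨k1, k2⟩, k3⟩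
      · obtain ⟨g, k1, k2, k3⟩ := hU.leaf z z' hz
        exact ⟨g, Or.inr ⟨k1, k2⟩, k3⟩
    have hconn := hConn X G N P Q m ν hm p q b hB.boxes S xi κ Lk hLk1 hLk2
      (fun z z' => Leaf T a cs z z' ∨ Leaf T.symm (ainv T.symm a) cu z z')
      (fun z z' hz => by
        obtain ⟨g, k1, -⟩ := hleaf z z' hz
        exact ⟨g, k1⟩) hE
    obtain ⟨S', hS'm, hS'ae, hsat⟩ := hSpr X G N P Q m ν hm p q b hB.boxes S hSm xi κ hκc hκr Lk
      hLk1 hLk2 hconn
    have hpath : ∀ z z' : X × N, Relation.ReflTransGen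
        (fun z z' => Leaf T a cs z z' ∨ Leaf T.symm (ainv T.symm a) cu z z') z z' →
        (z' ∈ S' ↔ z ∈ S') := by
      intro z z' h
      induction h with
      | refl => rfl
      | @tail w w' _ h2 ih =>
        obtain ⟨g, k1, k2⟩ := hleaf w w' h2
        have h3 := hsat w.1 w'.1 g k1 w.2
        rw [← k2] at h3
        exact h3.trans ih
    have hcases : (m.prod ν) S' = 0 ∨ (m.prod ν) S'ᶜ = 0 := by
      by_contra hcon
      push Not at hcon
      obtain ⟨z, hz, z', hz', hzz⟩ := hE S' S'ᶜ hS'm hS'm.compl (pos_iff_ne_zero.mpr hcon.1)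
        (pos_iff_ne_zero.mpr hcon.2)
      exact hz' ((hpath z z' hzz).mpr hz)
    rw [eventuallyConst_set']
    rcases hcases with h | h
    · left
      exact hS'ae.symm.trans (ae_eq_empty.mpr h)
    · right
      exact hS'ae.symm.trans (ae_eq_univ.mpr h)
  have key2 : Mixing (skew T a : X × N → X × N) (m.prod ν) := key
  exact ⟨hErg (X × N) (m.prod ν) (skew T a) hfm key2, key2⟩

end Pool.Agent.Work.MP_adbfe6_an.An

end
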